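import Pool.Agent.W165.CE.Euler
import Pool.Agent.N875.X15.Ap
import Pool.Agent.N856.QB.Stm
import Pool.Agent.H921R2.TatePole.Base

/-!
# The numbers of points of the twists of `X_0(15)` over the residue fields (QB-LPR)
-/

set_option autoImplicit false
set_option linter.unusedVariables false

open NumberField IsDedekindDomain WeierstrassCurve Filter
open Pool.Agent.H921R2.TatePole
open Pool.Agent.H82R3.EK (luc natCast_mem_iff nm_cpow prime_cpow)
open W165.CE (av ap0 trace_good intCast_mem_iff finite_bad fac fac_sub_bound)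

namespace Pool.Agent.N106.QB.Lp

open Pool.Agent.Y682.XF (base a factor pts)
open Pool.Agent.N875.X15 (WN WN_k WN_Δ ap_dvd ap_ndvd ap_two)
open Pool.Agent.W97.MT (ap affCount)

lemma pts_congr (W : WeierstrassCurve ℤ) {R R' : Type} [CommRing R] [CommRing R'] (e : R ≃+* R') :
    pts W R = pts W R' := by
  unfold Pool.Agent.Y682.XF.pts
  refine Nat.card_congr (Equiv.subtypeEquiv (Equiv.prodCongr e.toEquiv e.toEquiv) fun x => ?_)
  have h : W.map (Int.castRingHom R') = (W.map (Int.castRingHom R)).map (e : R →+* R') := by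
    rw [WeierstrassCurve.map_map]
    congr 1
    exact RingHom.ext_int _ _
  change _ ↔ (W.map (Int.castRingHom R')).toAffine.Equation _ _
  rw [h]
  exact (WeierstrassCurve.Affine.map_equation (W.map (Int.castRingHom R)).toAffine
    (f := (e : R →+* R')) e.injective x.1 x.2).symm

/-- the coefficients of the short equation -/
def A (m : ℤ) : ℤ := -(12987 * m ^ 2)

/-- the coefficients of the short equation -/
def B (m : ℤ) : ℤ := -(263466 * m ^ 3)

theorem disc_AB (m : ℤ) : 4 * A m ^ 3 + 27 * B m ^ 2 = -(2 ^ 8 * 3 ^ 16 * 5 ^ 4 * m ^ 6) := by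
  unfold A B
  ring

/-- passage to the short equation -/
theorem pts_short {k : Type} [Field k] (h2 : (2 : k) ≠ 0) (h3 : (3 : k) ≠ 0) {m : ℤ}
    (hm : m % 4 = 1) : pts (WN m) k =
      Nat.card {x : k × k // x.2 ^ 2 = x.1 ^ 3 + (A m : k) * x.1 + (B m : k)} := by
  obtain ⟨j, rfl⟩ : ∃ j, m = 4 * j + 1 := ⟨m / 4, by omega⟩
  rw [WN_k]
  unfold Pool.Agent.Y682.XF.pts
  have h36 : (36 : k) ≠ 0 := by
    have : (36 : k) = (2 * 3) ^ 2 := by norm_num
    rw [this]
    exact pow_ne_zero 2 (mul_ne_zero h2 h3)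
  have h108 : (108 : k) ≠ 0 := by
    have : (108 : k) = 2 ^ 2 * 3 ^ 3 := by norm_num
    rw [this]
    exact mul_ne_zero (pow_ne_zero 2 h2) (pow_ne_zero 3 h3)
  set M : k := 4 * (j : k) + 1 with hM
  have key : ∀ x y : k, ((base ⟨1, -(7 * j + 2), 0, -(9 * (4 * j + 1) ^ 2), 0⟩ k).toAffine.Equation
      x y ↔ (108 * (2 * y + x)) ^ 2 = (36 * x - 21 * M) ^ 3 +
        (A (4 * j + 1) : k) * (36 * x - 21 * M) + (B (4 * j + 1) : k)) := by
    intro x y
    rw [WeierstrassCurve.Affine.equation_iff]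
    simp only [WeierstrassCurve.map, map_one, map_neg, map_zero, eq_intCast, A, B]
    push_cast
    have e1 : (108 * (2 * y + x)) ^ 2 - ((36 * x - 21 * M) ^ 3 +
        (-(12987 * (4 * (j : k) + 1) ^ 2)) * (36 * x - 21 * M) + (-(263466 * (4 * (j : k) + 1) ^ 3)))
        = (108 * 108 * 2 * 2) * ((y ^ 2 + 1 * x * y + 0 * y) -
          (x ^ 3 + -(7 * (j : k) + 2) * x ^ 2 + -(9 * (4 * (j : k) + 1) ^ 2) * x + 0)) := by
      rw [hM]
      ring
    constructor
    · intro h
      rw [← sub_eq_zero, e1, h]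
      ring
    · intro h
      have h5 := sub_eq_zero.2 h
      rw [e1] at h5
      have h6 := (mul_eq_zero.1 h5).resolve_left
        (mul_ne_zero (mul_ne_zero (mul_ne_zero h108 h108) h2) h2)
      exact sub_eq_zero.1 h6
  refine Nat.card_congr
    { toFun := fun P => ⟨(36 * P.1.1 - 21 * M, 108 * (2 * P.1.2 + P.1.1)), (key _ _).1 P.2⟩
      invFun := fun Q => ⟨((Q.1.1 + 21 * M) / 36, (Q.1.2 / 108 - (Q.1.1 + 21 * M) / 36) / 2), ?_⟩
      left_inv := ?_
      right_inv := ?_ }
  · rw [key]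
    have e1 : 36 * ((Q.1.1 + 21 * M) / 36) - 21 * M = Q.1.1 := by
      field_simp
      ring
    have e2 : 108 * (2 * ((Q.1.2 / 108 - (Q.1.1 + 21 * M) / 36) / 2) + (Q.1.1 + 21 * M) / 36) =
        Q.1.2 := by
      rw [mul_div_cancel₀ _ h2]
      rw [sub_add_cancel, mul_div_cancel₀ _ h108]
    simp only [e1, e2]
    exact Q.2
  · intro P
    apply Subtype.ext
    apply Prod.ext
    · show (36 * P.1.1 - 21 * M + 21 * M) / 36 = P.1.1
      rw [sub_add_cancel, mul_div_cancel_left₀ _ h36]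
    · show (108 * (2 * P.1.2 + P.1.1) / 108 - (36 * P.1.1 - 21 * M + 21 * M) / 36) / 2 = P.1.2
      rw [sub_add_cancel, mul_div_cancel_left₀ _ h36, mul_div_cancel_left₀ _ h108,
        add_sub_cancel_right, mul_div_cancel_left₀ _ h2]
  · intro Q
    apply Subtype.ext
    apply Prod.ext
    · show 36 * ((Q.1.1 + 21 * M) / 36) - 21 * M = Q.1.1
      rw [mul_div_cancel₀ _ h36, add_sub_cancel_right]
    · show 108 * (2 * ((Q.1.2 / 108 - (Q.1.1 + 21 * M) / 36) / 2) + (Q.1.1 + 21 * M) / 36) = Q.1.2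
      rw [mul_div_cancel₀ _ h2, sub_add_cancel, mul_div_cancel₀ _ h108]

/-- additive reduction -/
theorem pts_zero {k : Type} [Field k] [Fintype k] (h2 : (2 : k) ≠ 0) {m : ℤ}
    (hm : m % 4 = 1) (h0 : (m : k) = 0) : (pts (WN m) k : ℤ) = Fintype.card k := by
  classical
  have hchar : ringChar k ≠ 2 := by
    intro h
    apply h2
    have := ringChar.Nat.cast_ringChar (R := k)
    rw [h] at this
    exact_mod_cast this
  obtain ⟨j, rfl⟩ : ∃ j, m = 4 * j + 1 := ⟨m / 4, by omega⟩
  rw [WN_k]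
  have e : pts ⟨1, -(7 * j + 2), 0, -(9 * (4 * j + 1) ^ 2), 0⟩ k =
      Nat.card {q : k × k // q.2 ^ 2 = q.1 ^ 2 * q.1} := by
    unfold Pool.Agent.Y682.XF.pts
    have hj : 4 * (j : k) + 1 = 0 := by
      push_cast at h0
      exact h0
    have key : ∀ x y : k, ((base ⟨1, -(7 * j + 2), 0, -(9 * (4 * j + 1) ^ 2), 0⟩ k).toAffine.Equation
        x y ↔ (2 * y + x) ^ 2 = x ^ 2 * (4 * x)) := by
      intro x y
      rw [WeierstrassCurve.Affine.equation_iff]
      simp only [WeierstrassCurve.map, map_one, map_neg, map_zero, eq_intCast]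
      push_cast
      have e1 : (2 * y + x) ^ 2 - x ^ 2 * (4 * x) = (2 * 2) * ((y ^ 2 + 1 * x * y + 0 * y) -
          (x ^ 3 + -(7 * (j : k) + 2) * x ^ 2 + -(9 * (4 * (j : k) + 1) ^ 2) * x + 0)) := by
        linear_combination (-7 * x ^ 2 - 36 * x * (4 * (j : k) + 1)) * hj
      constructor
      · intro h
        rw [← sub_eq_zero, e1, h]
        ring
      · intro h
        have h5 := sub_eq_zero.2 h
        rw [e1] at h5
        exact sub_eq_zero.1 ((mul_eq_zero.1 h5).resolve_left (mul_ne_zero h2 h2))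
    have h4 : (4 : k) ≠ 0 := by
      have : (4 : k) = 2 * 2 := by norm_num
      rw [this]
      exact mul_ne_zero h2 h2
    refine Nat.card_congr
      { toFun := fun P => ⟨(4 * P.1.1, 4 * (2 * P.1.2 + P.1.1)), ?_⟩
        invFun := fun Q => ⟨(Q.1.1 / 4, (Q.1.2 / 4 - Q.1.1 / 4) / 2), ?_⟩
        left_inv := ?_
        right_inv := ?_ }
    · have h := (key _ _).1 P.2
      show (4 * (2 * P.1.2 + P.1.1)) ^ 2 = (4 * P.1.1) ^ 2 * (4 * P.1.1)
      linear_combination 16 * h
    · rw [key]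
      show (2 * ((Q.1.2 / 4 - Q.1.1 / 4) / 2) + Q.1.1 / 4) ^ 2 = (Q.1.1 / 4) ^ 2 * (4 * (Q.1.1 / 4))
      rw [mul_div_cancel₀ _ h2, sub_add_cancel, mul_div_cancel₀ _ h4]
      have h := Q.2
      field_simp
      linear_combination h
    · intro P
      apply Subtype.ext
      apply Prod.ext
      · show 4 * P.1.1 / 4 = P.1.1
        rw [mul_div_cancel_left₀ _ h4]
      · show (4 * (2 * P.1.2 + P.1.1) / 4 - 4 * P.1.1 / 4) / 2 = P.1.2
        rw [mul_div_cancel_left₀ _ h4, mul_div_cancel_left₀ _ h4, add_sub_cancel_right,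
          mul_div_cancel_left₀ _ h2]
    · intro Q
      apply Subtype.ext
      apply Prod.ext
      · show 4 * (Q.1.1 / 4) = Q.1.1
        rw [mul_div_cancel₀ _ h4]
      · show 4 * (2 * ((Q.1.2 / 4 - Q.1.1 / 4) / 2) + Q.1.1 / 4) = Q.1.2
        rw [mul_div_cancel₀ _ h2, sub_add_cancel, mul_div_cancel₀ _ h4]
  rw [e, Pool.Agent.H82R3.EK.card_points hchar (fun x : k => x ^ 2 * x)]
  have : ∑ x : k, quadraticChar k (x ^ 2 * x) = ∑ x : k, quadraticChar k x := by
    refine Finset.sum_congr rfl fun x _ => ?_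
    rw [map_mul]
    by_cases hx : x = 0
    · rw [hx]; simp
    · rw [quadraticChar_sq_one' hx, one_mul]
  rw [this, quadraticChar_sum_zero hchar, add_zero]

/-- a field with four elements -/
theorem pts_four {k : Type} [Field k] [Fintype k] (hk : Fintype.card k = 4) (h2 : (2 : k) = 0)
    {m : ℤ} (hm : m % 4 = 1) : pts (WN m) k = 7 := by
  classical
  obtain ⟨j, rfl⟩ : ∃ j, m = 4 * j + 1 := ⟨m / 4, by omega⟩
  rw [WN_k]
  have hx4 : ∀ x : k, x ^ 4 = x := by
    intro x
    have := FiniteField.pow_card x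
    rwa [hk] at this
  obtain ⟨w, hw0, hw1⟩ : ∃ w : k, w ≠ 0 ∧ w ≠ 1 := by
    by_contra hcon
    push Not at hcon
    have hle : Fintype.card k ≤ Fintype.card (Fin 2) := by
      apply Fintype.card_le_of_surjective (fun i : Fin 2 => if i = 0 then (0 : k) else 1)
      intro x
      by_cases hx : x = 0
      · exact ⟨0, by simp [hx]⟩
      · exact ⟨1, by simp [hcon x hx]⟩
    rw [hk, Fintype.card_fin] at hle
    omega
  have hsq : ∀ c : k, c ^ 2 = c → ∃ z : k, z ^ 2 + z = c := by
    intro c hc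
    have h1 : c * (c - 1) = 0 := by linear_combination hc
    rcases mul_eq_zero.1 h1 with h | h
    · exact ⟨0, by rw [h]; ring⟩
    · refine ⟨w, ?_⟩
      have hc1 : c = 1 := by linear_combination h
      rw [hc1]
      have h3 : w * (w - 1) * (w ^ 2 + w + 1) = 0 := by
        linear_combination hx4 w
      have h4 := (mul_eq_zero.1 h3).resolve_left (mul_ne_zero hw0 (sub_ne_zero.2 hw1))
      linear_combination h4 - h2
  have hint : ∀ z : ℤ, ((z : k)) ^ 2 = z := by
    intro z
    rcases Int.emod_two_eq_zero_or_one z with h | h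
    · obtain ⟨c, rfl⟩ : ∃ c, z = 2 * c := ⟨z / 2, by omega⟩
      push_cast
      rw [h2]
      ring
    · obtain ⟨c, rfl⟩ : ∃ c, z = 2 * c + 1 := ⟨z / 2, by omega⟩
      push_cast
      rw [h2]
      ring
  set a2 : ℤ := -(7 * j + 2) with ha2
  set a4 : ℤ := -(9 * (4 * j + 1) ^ 2) with ha4
  have h4 : ((a4 : ℤ) : k) = 1 := by
    rw [ha4]
    push_cast
    linear_combination (-(9 * (8 * (j : k) ^ 2 + 4 * (j : k))) - 5) * h2
  have hsol : ∀ x : k, x ≠ 0 → Nat.card {y : k // y ^ 2 + x * y = x ^ 3 + (a2 : k) * x ^ 2 + x} = 2 := by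
    intro x hx
    have hx3 : x ^ 3 = 1 := by
      have h5 : x * (x ^ 3 - 1) = 0 := by linear_combination hx4 x
      linear_combination (mul_eq_zero.1 h5).resolve_left hx
    obtain ⟨z, hz⟩ := hsq (x + a2 + x ^ 2) (by
      have h6 := hint a2
      linear_combination h6 + hx4 x + (x * (a2 : k) + x ^ 3 + (a2 : k) * x ^ 2) * h2)
    have hy0 : (x * z) ^ 2 + x * (x * z) = x ^ 3 + (a2 : k) * x ^ 2 + x := by
      linear_combination x ^ 2 * hz + hx4 x
    have hset : {y : k | y ^ 2 + x * y = x ^ 3 + (a2 : k) * x ^ 2 + x} = {x * z, x * z + x} := by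
      ext y
      simp only [Set.mem_ofPred_eq, Set.mem_insert_iff, Set.mem_singleton_iff]
      constructor
      · intro h
        have h7 : (y - x * z) * (y + x * z + x) = 0 := by linear_combination h - hy0
        rcases mul_eq_zero.1 h7 with h8 | h8
        · exact Or.inl (sub_eq_zero.1 h8)
        · right
          linear_combination h8 - (x * z + x) * h2
      · rintro (rfl | rfl)
        · exact hy0
        · linear_combination hy0 + (x ^ 2 * z + x ^ 2) * h2
    have hne : x * z ≠ x * z + x := by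
      intro h
      apply hx
      linear_combination -h
    have : Nat.card {y : k // y ^ 2 + x * y = x ^ 3 + (a2 : k) * x ^ 2 + x} =
        Nat.card ({x * z, x * z + x} : Set k) := by
      rw [← hset]
      rfl
    rw [this, Nat.card_coe_set_eq, Set.ncard_pair hne]
  have e : {P : k × k // (base ⟨1, a2, 0, a4, 0⟩ k).toAffine.Equation P.1 P.2} ≃
      Σ x : k, {y : k // y ^ 2 + x * y = x ^ 3 + (a2 : k) * x ^ 2 + x} := by
    have key : ∀ x y : k, ((base ⟨1, a2, 0, a4, 0⟩ k).toAffine.Equation x y ↔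
        y ^ 2 + x * y = x ^ 3 + (a2 : k) * x ^ 2 + x) := by
      intro x y
      rw [WeierstrassCurve.Affine.equation_iff]
      simp only [WeierstrassCurve.map, map_one, map_zero, eq_intCast, h4]
      ring_nf
    exact
      { toFun := fun P => ⟨P.1.1, ⟨P.1.2, (key _ _).1 P.2⟩⟩
        invFun := fun s => ⟨(s.1, s.2.1), (key _ _).2 s.2.2⟩
        left_inv := fun _ => rfl
        right_inv := fun _ => rfl }
  unfold Pool.Agent.Y682.XF.pts
  rw [Nat.card_congr e, Nat.card_sigma]
  have h0 : Nat.card {y : k // y ^ 2 + (0 : k) * y = (0 : k) ^ 3 + (a2 : k) * (0 : k) ^ 2 + 0} = 1 := by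
    rw [Nat.card_eq_one_iff_unique]
    refine ⟨⟨fun y y' => ?_⟩, ⟨⟨0, by ring⟩⟩⟩
    have f : ∀ y : {y : k // y ^ 2 + (0 : k) * y = (0 : k) ^ 3 + (a2 : k) * (0 : k) ^ 2 + 0}, y.1 = 0 := by
      intro y
      have h := y.2
      have : y.1 ^ 2 = 0 := by linear_combination h
      exact pow_eq_zero_iff (two_ne_zero) |>.1 this
    exact Subtype.ext ((f y).trans (f y').symm)
  rw [← Finset.add_sum_erase _ _ (Finset.mem_univ (0 : k)), h0]
  rw [Finset.sum_congr rfl (fun x hx => hsol x (Finset.ne_of_mem_erase hx)), Finset.sum_const,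
    Finset.card_erase_of_mem (Finset.mem_univ _), Finset.card_univ, hk]
  norm_num

end Pool.Agent.N106.QB.Lp
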