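import Pool.Agent.R475.LP.Split
import Pool.Agent.N856.QB.Stm

/-!
# The decomposition of the primes in `ℚ(√D)`, `D ≡ 1` modulo `4` (QB-LPR)

Adapted from `Pool/Agent/R475/LP/Split.lean` (where `D` is prime to `14`).
-/

set_option autoImplicit false

namespace Pool.Agent.N106.QB.Dec

open NumberField IsDedekindDomain Pool.Agent.H921R2.TatePole
open Pool.Agent.R475.LP (exists_place below_eq int_mem norm_p deg_le two_places deg_one_int kr_one
  kr_neg kr_null)
open Pool.Agent.Y682.XF (kr)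

/-- `K = ℚ(d)`, `d² = D`, `D ≠ 1` squarefree, `D ≡ 1` modulo `4`. -/
structure Qd (D : ℤ) (K : Type) [Field K] [NumberField K] (d : K) : Prop where
  sqf : Squarefree D
  m4 : D % 4 = 1
  ne1 : D ≠ 1
  hd : d ^ 2 = ((D : ℤ) : K)
  hK : ∀ x : K, ∃ a b : ℚ, x = (a : K) + (b : K) * d

section
variable {K : Type} [Field K] [NumberField K] {D : ℤ} {d : K}

lemma fin2 (h : Qd D K d) : Module.finrank ℚ K = 2 :=
  Pool.Agent.R428.OP.Disc.finr (fun q => Pool.Agent.R428.OP.Disc.not_rat h.sqf h.ne1 h.hd q) h.hK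

/-- coordinates of integers -/
lemma coords (h : Qd D K d) (x : 𝓞 K) : ∃ t u : ℤ, 2 * (x : K) = t + u * d := by
  obtain ⟨t, u, _, h2⟩ := Pool.Agent.R428.OP.Disc.coords
    (fun q => Pool.Agent.R428.OP.Disc.not_rat h.sqf h.ne1 h.hd q) h.sqf h.hd h.hK (x : K) x.2
  exact ⟨t, u, h2⟩

/-- comparison of the coordinates -/
lemma lin (h : Qd D K d) (a b a' b' : ℤ) (e : (a : K) + b * d = a' + b' * d) : b = b' := by
  by_contra hne
  have h1 : ((b - b' : ℤ) : ℚ) ≠ 0 := by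
    have : b - b' ≠ 0 := sub_ne_zero.2 hne
    exact_mod_cast this
  apply Pool.Agent.R428.OP.Disc.not_rat h.sqf h.ne1 h.hd (((a' - a : ℤ) : ℚ) / ((b - b' : ℤ) : ℚ))
  rw [map_div₀]
  have h2 : algebraMap ℚ K ((b - b' : ℤ) : ℚ) ≠ 0 := by
    rw [Ne, map_eq_zero]
    exact h1
  rw [div_eq_iff h2]
  simp only [map_intCast]
  push_cast
  linear_combination -e

/-- the generator of the ring of integers -/
lemma exists_om (h : Qd D K d) : ∃ θ : 𝓞 K, 2 * (θ : K) = 1 + d ∧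
    θ ^ 2 - θ = (((D - 1) / 4 : ℤ) : 𝓞 K) := by
  obtain ⟨θ, hθ⟩ : ∃ θ : 𝓞 K, (θ : K) = (1 + d) / 2 :=
    ⟨⟨_, Pool.Agent.R428.OP.Disc.int_omega h.hd h.m4⟩, rfl⟩
  refine ⟨θ, by rw [hθ]; field_simp, ?_⟩
  obtain ⟨m, hm⟩ : ∃ m : ℤ, D = 4 * m + 1 := ⟨D / 4, by have := h.m4; omega⟩
  have e : (D - 1) / 4 = m := by omega
  rw [e]
  apply RingOfIntegers.ext
  have h1 := h.hd
  rw [hm] at h1
  push_cast at h1
  have e1 : ((θ ^ 2 - θ : 𝓞 K) : K) = (θ : K) ^ 2 - (θ : K) := by simp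
  rw [e1, hθ]
  have e2 : (((m : ℤ) : 𝓞 K) : K) = (m : K) := by simp
  rw [e2]
  linear_combination (1 / 4) * h1

lemma sqrt_int (h : Qd D K d) : ∃ δ : 𝓞 K, (δ : K) = d ∧ δ ^ 2 = ((D : ℤ) : 𝓞 K) := by
  obtain ⟨θ, h1, _⟩ := exists_om h
  have e1 : ((2 * θ - 1 : 𝓞 K) : K) = d := by
    have : ((2 * θ - 1 : 𝓞 K) : K) = 2 * (θ : K) - 1 := by
      show algebraMap (𝓞 K) K (2 * θ - 1) = 2 * algebraMap (𝓞 K) K θ - 1
      rw [map_sub, map_mul, map_one, map_ofNat]
    rw [this, h1]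
    ring
  refine ⟨2 * θ - 1, e1, ?_⟩
  apply RingOfIntegers.ext
  have e2 : (((2 * θ - 1) ^ 2 : 𝓞 K) : K) = (((2 * θ - 1 : 𝓞 K)) : K) ^ 2 := by simp
  rw [e2, e1, h.hd]
  simp

/-- the decomposition of the primes in `K` -/
theorem split_cases (h : Qd D K d) (p : Nat.Primes) :
    (kr D p = 1 ∧ ∃ v w : HeightOneSpectrum (𝓞 K), v ≠ w ∧ below v = p ∧ below w = p ∧
      deg v = 1 ∧ deg w = 1 ∧ ∀ u : HeightOneSpectrum (𝓞 K), below u = p → u = v ∨ u = w) ∨
    (kr D p = -1 ∧ ∃ v : HeightOneSpectrum (𝓞 K), below v = p ∧ deg v = 2 ∧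
      ∀ u : HeightOneSpectrum (𝓞 K), below u = p → u = v) ∨
    (kr D p = 0 ∧ ∃ v : HeightOneSpectrum (𝓞 K), below v = p ∧ deg v = 1 ∧
      ∀ u : HeightOneSpectrum (𝓞 K), below u = p → u = v) := by
  have hf := fin2 h
  have hp := p.2
  have hpZ : Prime (((p : ℕ) : ℤ)) := Nat.prime_iff_prime_int.1 hp
  obtain ⟨θ, hθ1, hθ2⟩ := exists_om h
  -- a place above `p`
  have hex : ∃ v : HeightOneSpectrum (𝓞 K), below v = p := by
    obtain ⟨v, hv⟩ := exists_place (K := K) p (Ideal.span {(((p : ℕ) : 𝓞 K))}) (by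
      intro htop
      have h1 := norm_p hf p
      rw [htop, Ideal.absNorm_top] at h1
      have := Nat.pow_lt_pow_left hp.one_lt (two_ne_zero)
      omega) (Ideal.subset_span rfl)
    exact ⟨v, below_eq p v (hv (Ideal.subset_span rfl))⟩
  have hkr : kr D p = 0 ∨ kr D p = 1 ∨ kr D p = -1 := by
    unfold kr
    split_ifs
    · exact Or.inr (Or.inl rfl)
    · exact Or.inr (Or.inr rfl)
    · exact jacobiSym.trichotomy D p
  rcases hkr with hk | hk | hk
  · -- ramified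
    right; right
    refine ⟨hk, ?_⟩
    obtain ⟨hpD, hp2⟩ := kr_null hp hk
    obtain ⟨δ, hδ1, hδ2⟩ := sqrt_int h
    have hδv : ∀ v : HeightOneSpectrum (𝓞 K), below v = p → δ ∈ v.asIdeal := by
      intro v hv
      have h1 : δ ^ 2 ∈ v.asIdeal := by
        rw [hδ2]
        obtain ⟨t, ht⟩ := hpD
        rw [ht]
        push_cast
        apply Ideal.mul_mem_right
        have := (nm_eq v).2.2
        rwa [hv] at this
      exact v.isPrime.mem_of_pow_mem 2 h1
    have hnot : δ ∉ Ideal.span {(((p : ℕ) : 𝓞 K))} := by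
      intro h1
      obtain ⟨x, hx⟩ := Ideal.mem_span_singleton'.1 h1
      obtain ⟨t, u, htu⟩ := coords h x
      have h2 : ((0 : ℤ) : K) + ((2 : ℤ) : K) * d = (((p : ℕ) * t : ℤ) : K) + (((p : ℕ) * u : ℤ) : K) * d := by
        have h3 := congrArg (algebraMap (𝓞 K) K) hx
        rw [map_mul, map_natCast] at h3
        have h4 : algebraMap (𝓞 K) K δ = d := hδ1
        rw [h4] at h3
        have h5 : algebraMap (𝓞 K) K x = (x : K) := rfl
        rw [h5] at h3
        push_cast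
        linear_combination (-2) * h3 + ((p : ℕ) : K) * htu
      have h3 := lin h _ _ _ _ h2
      exact hp2 ⟨u, by exact_mod_cast h3⟩
    obtain ⟨v, hv⟩ := hex
    refine ⟨v, hv, ?_, ?_⟩
    · rcases (deg_le hf v).1 with h1 | h1
      · exact h1
      · exfalso
        have h2 := (deg_le hf v).2 h1
        rw [hv] at h2
        apply hnot
        rw [← h2]
        exact hδv v hv
    · intro u hu
      by_contra hne
      obtain ⟨_, _, h3, _⟩ := two_places hf u v hne (hu.trans hv.symm)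
      rw [hu] at h3
      apply hnot
      rw [← h3]
      have hco : u.asIdeal * v.asIdeal = u.asIdeal ⊓ v.asIdeal := by
        apply Ideal.mul_eq_inf_of_coprime
        exact (u.isPrime.isMaximal u.ne_bot).coprime_of_ne (v.isPrime.isMaximal v.ne_bot)
          (fun h => hne (HeightOneSpectrum.ext h))
      rw [hco]
      exact ⟨hδv u hu, hδv v hv⟩
  · -- split
    left
    refine ⟨hk, ?_⟩
    obtain ⟨c, hc1, hc2⟩ := kr_one h.m4 hp hk
    have hmul : ∀ c : ℤ, ((p : ℕ) : ℤ) ∣ c ^ 2 - c - (D - 1) / 4 → 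
        ∃ v : HeightOneSpectrum (𝓞 K), below v = p ∧ θ - (c : 𝓞 K) ∈ v.asIdeal := by
      intro c hc
      obtain ⟨v, hv⟩ := exists_place (K := K) p (Ideal.span {(((p : ℕ) : 𝓞 K)), θ - (c : 𝓞 K)}) (by
        intro htop
        rw [Ideal.eq_top_iff_one, Ideal.mem_span_pair] at htop
        obtain ⟨x, y, hxy⟩ := htop
        obtain ⟨t, ht⟩ := hc
        -- `θ - (1 - c)` is divisible by `p`
        have h1 : θ - ((1 - c : ℤ) : 𝓞 K) = ((p : ℕ) : 𝓞 K) * (x * (θ - ((1 - c : ℤ) : 𝓞 K)) - y * (t : 𝓞 K)) := by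
          have h2 : (θ - (c : 𝓞 K)) * (θ - ((1 - c : ℤ) : 𝓞 K)) = - (((p : ℕ) : 𝓞 K) * (t : 𝓞 K)) := by
            have h3 := congrArg (Int.cast : ℤ → 𝓞 K) ht
            push_cast at h3 hθ2 ⊢
            linear_combination hθ2 - h3
          linear_combination (θ - ((1 - c : ℤ) : 𝓞 K)) * (-hxy) + y * h2
        obtain ⟨t', u', htu⟩ := coords h (x * (θ - ((1 - c : ℤ) : 𝓞 K)) - y * (t : 𝓞 K))
        have h3 := congrArg (algebraMap (𝓞 K) K) h1
        rw [map_mul, map_sub, map_natCast, map_intCast] at h3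
        have h4 : ((1 - 2 * (1 - c) : ℤ) : K) + ((1 : ℤ) : K) * d = (((p : ℕ) * t' : ℤ) : K) + (((p : ℕ) * u' : ℤ) : K) * d := by
          have h5 : algebraMap (𝓞 K) K θ = (θ : K) := rfl
          have h6 : ∀ z : 𝓞 K, algebraMap (𝓞 K) K z = (z : K) := fun z => rfl
          rw [h6, h6] at h3
          push_cast at h3 htu ⊢
          linear_combination 2 * h3 - hθ1 + ((p : ℕ) : K) * htu
        have h5 := lin h _ _ _ _ h4
        have h6 : ((p : ℕ) : ℤ) ∣ 1 := ⟨u', h5⟩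
        exact hpZ.not_isUnit (isUnit_of_dvd_one h6)) (Ideal.subset_span (by simp))
      exact ⟨v, below_eq p v (hv (Ideal.subset_span (by simp))), hv (Ideal.subset_span (by simp))⟩
    obtain ⟨v, hv1, hv2⟩ := hmul c hc1
    obtain ⟨w, hw1, hw2⟩ := hmul (1 - c) (by
      have e : (1 - c) ^ 2 - (1 - c) - (D - 1) / 4 = c ^ 2 - c - (D - 1) / 4 := by ring
      rw [e]
      exact hc1)
    have hne : v ≠ w := by
      intro h1
      rw [← h1] at hw2
      have h2 : (((2 * c - 1 : ℤ)) : 𝓞 K) ∈ v.asIdeal := by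
        have e : (((2 * c - 1 : ℤ)) : 𝓞 K) = (θ - ((1 - c : ℤ) : 𝓞 K)) - (θ - (c : 𝓞 K)) := by
          push_cast
          ring
        rw [e]
        exact Ideal.sub_mem _ hw2 hv2
      have h3 := int_mem v _ h2
      rw [hv1] at h3
      exact hc2 h3
    obtain ⟨h1, h2, _, h3⟩ := two_places hf v w hne (hv1.trans hw1.symm)
    rw [hv1] at h3
    exact ⟨v, w, hne, hv1, hw1, h1, h2, h3⟩
  · -- inert
    right; left
    refine ⟨hk, ?_⟩
    have hd2 : ∀ v : HeightOneSpectrum (𝓞 K), below v = p → deg v ≠ 1 := by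
      intro v hv h1
      obtain ⟨c, hc⟩ := deg_one_int v h1 θ
      apply kr_neg h.m4 hp hk c
      have h2 : (((c ^ 2 - c - (D - 1) / 4 : ℤ)) : 𝓞 K) ∈ v.asIdeal := by
        have e : (((c ^ 2 - c - (D - 1) / 4 : ℤ)) : 𝓞 K) =
            - ((θ - (c : 𝓞 K)) * (θ - ((1 - c : ℤ) : 𝓞 K))) := by
          push_cast at hθ2 ⊢
          linear_combination hθ2
        rw [e]
        exact neg_mem (Ideal.mul_mem_right _ _ hc)
      have h3 := int_mem v _ h2
      rwa [hv] at h3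
    obtain ⟨v, hv⟩ := hex
    refine ⟨v, hv, ?_, ?_⟩
    · rcases (deg_le hf v).1 with h1 | h1
      · exact absurd h1 (hd2 v hv)
      · exact h1
    · intro u hu
      by_contra hne
      obtain ⟨h1, _⟩ := two_places hf u v hne (hu.trans hv.symm)
      exact hd2 u hu h1

end

end Pool.Agent.N106.QB.Dec
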