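import Pool.Agent.N106.QB.Dec
import Pool.Agent.N106.QB.Cnt

/-!
# `L(E/K, s) = L(E/ℚ, s) L(E_d/ℚ, s)` (QB-LPR)
-/

set_option autoImplicit false
set_option linter.unusedVariables false

open NumberField IsDedekindDomain WeierstrassCurve Filter
open Pool.Agent.H921R2.TatePole
open Pool.Agent.H82R3.EK (luc natCast_mem_iff nm_cpow prime_cpow)
open W165.CE (av ap0 trace_good intCast_mem_iff finite_bad fac fac_sub_bound)

namespace Pool.Agent.N106.QB.Lp

open Pool.Agent.Y682.XF (base a factor pts kr)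
open Pool.Agent.N875.X15 (WN WN_k WN_Δ ap_dvd ap_ndvd ap_two)
open Pool.Agent.W97.MT (ap affCount)

/-! ### The coefficients -/

theorem dvd_Δ {m : ℤ} (hm : m % 4 = 1) {p : ℕ} (hp : p.Prime) :
    (p : ℤ) ∣ (WN m).Δ ↔ p ∣ 15 ∨ (p : ℤ) ∣ m := by
  have hpZ : Prime ((p : ℕ) : ℤ) := Nat.prime_iff_prime_int.1 hp
  rw [WN_Δ hm, hpZ.dvd_mul, hpZ.dvd_mul]
  constructor
  · rintro ((h | h) | h)
    · left
      have h1 := hpZ.dvd_of_dvd_pow h
      have h2 : p ∣ 3 := by exact_mod_cast h1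
      exact h2.trans (by norm_num)
    · left
      have h1 := hpZ.dvd_of_dvd_pow h
      have h2 : p ∣ 5 := by exact_mod_cast h1
      exact h2.trans (by norm_num)
    · exact Or.inr (hpZ.dvd_of_dvd_pow h)
  · rintro (h | h)
    · left
      have h1 : p ∣ 3 * 5 := h
      rcases hp.dvd_mul.1 h1 with h2 | h2
      · left
        exact dvd_pow (by exact_mod_cast h2) (by norm_num)
      · right
        exact dvd_pow (by exact_mod_cast h2) (by norm_num)
    · exact Or.inr (dvd_pow h (by norm_num))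

theorem ap_twist {m D : ℤ} (hm : m % 4 = 1) (hD : D % 4 = 1) {p : ℕ} (hp : p.Prime) :
    ap (WN (m * D)) p = kr D p * ap (WN m) p := by
  have hF : Fact p.Prime := ⟨hp⟩
  have hmD : (m * D) % 4 = 1 := by rw [Int.mul_emod, hm, hD]; norm_num
  unfold kr
  by_cases h2 : p = 2
  · subst h2
    rw [if_pos rfl, ap_two hmD, ap_two hm]
    have h8m : m % 8 = 1 ∨ m % 8 = 5 := by omega
    have h8D : D % 8 = 1 ∨ D % 8 = 5 := by omega
    rcases h8m with h | h <;> rcases h8D with h' | h' <;> rw [Int.mul_emod, h, h'] <;> norm_num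
  · rw [if_neg h2]
    by_cases h3 : (p : ℤ) ∣ m
    · rw [ap_dvd hmD p h2 (Dvd.dvd.mul_right h3 _), ap_dvd hm p h2 h3, mul_zero]
    · by_cases h4 : (p : ℤ) ∣ D
      · rw [ap_dvd hmD p h2 (Dvd.dvd.mul_left h4 _)]
        have : jacobiSym D p = 0 := by
          rw [← jacobiSym.legendreSym.to_jacobiSym, legendreSym.eq_zero_iff]
          exact (ZMod.intCast_zmod_eq_zero_iff_dvd _ _).2 h4
        rw [this, zero_mul]
      · have hpZ : Prime ((p : ℕ) : ℤ) := Nat.prime_iff_prime_int.1 hp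
        have h5 : ¬ (p : ℤ) ∣ m * D := by
          rw [hpZ.dvd_mul, not_or]
          exact ⟨h3, h4⟩
        rw [ap_ndvd hmD p h2 h5, ap_ndvd hm p h2 h3, jacobiSym.mul_left]
        ring

/-! ### The residue fields -/

section
variable {K : Type} [Field K] [NumberField K]

theorem card_res (v : HeightOneSpectrum (𝓞 K)) :
    Ideal.absNorm v.asIdeal = Nat.card (𝓞 K ⧸ v.asIdeal) := by
  rw [Ideal.absNorm_apply, Submodule.cardQuot_apply]

theorem a_one (W : WeierstrassCurve ℤ) (v : HeightOneSpectrum (𝓞 K)) (h : deg v = 1) :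
    a W v = ap W (below v) := by
  have : Finite (𝓞 K ⧸ v.asIdeal) := Ideal.finiteQuotientOfFreeOfNeBot v.asIdeal v.ne_bot
  letI : Fintype (𝓞 K ⧸ v.asIdeal) := Fintype.ofFinite _
  obtain ⟨h1, h2, h3⟩ := nm_eq v
  rw [h, pow_one] at h1
  unfold nm at h1
  have hcard : Fintype.card (𝓞 K ⧸ v.asIdeal) = (below v : ℕ) := by
    rw [← h1, card_res, Nat.card_eq_fintype_card]
  have e : ZMod (below v) ≃+* (𝓞 K ⧸ v.asIdeal) := ZMod.ringEquivOfPrime _ (below v).2 hcard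
  unfold Pool.Agent.Y682.XF.a Pool.Agent.W97.MT.ap
  rw [← pts_congr W e, h1]
  rfl

theorem char_res (v : HeightOneSpectrum (𝓞 K)) {n : ℤ} (h : ¬ ((below v : ℕ) : ℤ) ∣ n) :
    ((n : ℤ) : 𝓞 K ⧸ v.asIdeal) ≠ 0 := by
  intro h0
  apply h
  rw [← intCast_mem_iff]
  rw [← map_intCast (Ideal.Quotient.mk v.asIdeal)] at h0
  exact Ideal.Quotient.eq_zero_iff_mem.1 h0

theorem char_res' (v : HeightOneSpectrum (𝓞 K)) {n : ℤ} (h : ((below v : ℕ) : ℤ) ∣ n) :
    ((n : ℤ) : 𝓞 K ⧸ v.asIdeal) = 0 := by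
  rw [← intCast_mem_iff] at h
  rw [← map_intCast (Ideal.Quotient.mk v.asIdeal)]
  exact Ideal.Quotient.eq_zero_iff_mem.2 h

theorem not_dvd_two {p : ℕ} (hp : p.Prime) (h : p ≠ 2) : ¬ (p : ℤ) ∣ 2 := by
  intro h1
  have h2 : p ∣ 2 := by exact_mod_cast h1
  exact h ((Nat.prime_dvd_prime_iff_eq hp Nat.prime_two).1 h2)

theorem not_dvd_three {p : ℕ} (hp : p.Prime) (h : ¬ p ∣ 15) : ¬ (p : ℤ) ∣ 3 := by
  intro h1
  have h2 : p ∣ 3 := by exact_mod_cast h1
  exact h (h2.trans (by norm_num))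

theorem a_short {m : ℤ} (hm : m % 4 = 1) (v : HeightOneSpectrum (𝓞 K))
    (h2 : (below v : ℕ) ≠ 2) (h15 : ¬ (below v : ℕ) ∣ 15) : a (WN m) v = av (A m) (B m) v := by
  have hmax : v.asIdeal.IsMaximal := v.isPrime.isMaximal v.ne_bot
  letI : Field (𝓞 K ⧸ v.asIdeal) := Ideal.Quotient.field v.asIdeal
  have e2 : ((2 : ℤ) : 𝓞 K ⧸ v.asIdeal) ≠ 0 := char_res v (not_dvd_two (below v).2 h2)
  have e3 : ((3 : ℤ) : 𝓞 K ⧸ v.asIdeal) ≠ 0 := char_res v (not_dvd_three (below v).2 h15)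
  unfold Pool.Agent.Y682.XF.a W165.CE.av
  have := pts_short (k := 𝓞 K ⧸ v.asIdeal) (by exact_mod_cast e2) (by exact_mod_cast e3) hm
  rw [← this]

theorem ap0_eq {m : ℤ} (hm : m % 4 = 1) {p : ℕ} (hp : p.Prime)
    (h2 : p ≠ 2) (h15 : ¬ p ∣ 15) : ap0 (A m) (B m) p = ap (WN m) p := by
  have hF : Fact p.Prime := ⟨hp⟩
  have e2 : ((2 : ℤ) : ZMod p) ≠ 0 := by
    rw [Ne, ZMod.intCast_zmod_eq_zero_iff_dvd]
    exact not_dvd_two hp h2
  have e3 : ((3 : ℤ) : ZMod p) ≠ 0 := by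
    rw [Ne, ZMod.intCast_zmod_eq_zero_iff_dvd]
    exact not_dvd_three hp h15
  have := pts_short (k := ZMod p) (by exact_mod_cast e2) (by exact_mod_cast e3) hm
  unfold W165.CE.ap0 Pool.Agent.W97.MT.ap
  rw [← this]
  rfl

theorem good_AB {m : ℤ} {p : ℕ} (hp : p.Prime) (h2 : p ≠ 2) (h15 : ¬ p ∣ 15)
    (hpm : ¬ (p : ℤ) ∣ m) : ¬ (p : ℤ) ∣ 2 * (4 * A m ^ 3 + 27 * B m ^ 2) := by
  have hpZ : Prime ((p : ℕ) : ℤ) := Nat.prime_iff_prime_int.1 hp
  rw [disc_AB, mul_neg, dvd_neg]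
  have h5 : ¬ (p : ℤ) ∣ 5 := by
    intro h1
    have h2 : p ∣ 5 := by exact_mod_cast h1
    exact h15 (h2.trans (by norm_num))
  have n2 := not_dvd_two hp h2
  have n3 := not_dvd_three hp h15
  have f : ∀ {z : ℤ} (j : ℕ), ¬ (p : ℤ) ∣ z → ¬ (p : ℤ) ∣ z ^ j :=
    fun j h h1 => h (hpZ.dvd_of_dvd_pow h1)
  rw [hpZ.dvd_mul, hpZ.dvd_mul, hpZ.dvd_mul, hpZ.dvd_mul]
  rintro (h | ((h | h) | h) | h)
  · exact n2 h
  · exact f 8 n2 h
  · exact f 16 n3 h
  · exact f 4 h5 h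
  · exact f 6 hpm h

/-- the coefficient at a place of degree two -/
theorem a_two {m : ℤ} (hm : m % 4 = 1) (v : HeightOneSpectrum (𝓞 K)) (h : deg v = 2)
    (h15 : ¬ (below v : ℕ) ∣ 15) : a (WN m) v = ap (WN m) (below v) ^ 2 -
      2 * (if ((below v : ℕ) : ℤ) ∣ (WN m).Δ then 0 else ((below v : ℕ) : ℤ)) := by
  have hmax : v.asIdeal.IsMaximal := v.isPrime.isMaximal v.ne_bot
  have hp := (below v).2
  have hF : Fact (below v : ℕ).Prime := ⟨hp⟩
  letI : Field (𝓞 K ⧸ v.asIdeal) := Ideal.Quotient.field v.asIdeal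
  have : Finite (𝓞 K ⧸ v.asIdeal) := Ideal.finiteQuotientOfFreeOfNeBot v.asIdeal v.ne_bot
  letI : Fintype (𝓞 K ⧸ v.asIdeal) := Fintype.ofFinite _
  obtain ⟨h1, -, h3⟩ := nm_eq v
  rw [h] at h1
  unfold nm at h1
  by_cases hpm : ((below v : ℕ) : ℤ) ∣ m
  · -- additive reduction
    have hp2 : (below v : ℕ) ≠ 2 := by
      intro h0
      rw [h0] at hpm
      push_cast at hpm
      omega
    rw [if_pos ((dvd_Δ hm hp).2 (Or.inr hpm)), ap_dvd hm _ hp2 hpm]
    have e2 : ((2 : ℤ) : 𝓞 K ⧸ v.asIdeal) ≠ 0 := char_res v (not_dvd_two hp hp2)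
    have := pts_zero (k := 𝓞 K ⧸ v.asIdeal) (by exact_mod_cast e2) hm (char_res' v hpm)
    unfold Pool.Agent.Y682.XF.a
    rw [this, card_res, Nat.card_eq_fintype_card]
    ring
  rw [if_neg (by rw [dvd_Δ hm hp, not_or]; exact ⟨h15, hpm⟩)]
  by_cases hp2 : (below v : ℕ) = 2
  · have hc : Fintype.card (𝓞 K ⧸ v.asIdeal) = 4 := by
      rw [← Nat.card_eq_fintype_card, ← card_res, h1, hp2]
      norm_num
    have e2 : ((2 : ℤ) : 𝓞 K ⧸ v.asIdeal) = 0 := char_res' v (by rw [hp2]; norm_num)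
    have h7 := pts_four (k := 𝓞 K ⧸ v.asIdeal) hc (by exact_mod_cast e2) hm
    unfold Pool.Agent.Y682.XF.a
    rw [h7, h1, hp2, ap_two hm]
    split_ifs <;> norm_num
  · rw [a_short hm v hp2 h15, trace_good v (good_AB hp hp2 h15 hpm), ap0_eq hm hp hp2 h15, h]
    simp only [luc]
    ring

/-- `p ^ (-s)` -/
noncomputable def u (m : ℤ) (p : ℕ) : ℂ := if (p : ℤ) ∣ (WN m).Δ then 0 else (p : ℂ)

theorem eul_eq (m : ℤ) {p : ℕ} (hp : p.Prime) (s : ℂ) :
    (1 - (ap (WN m) p : ℂ) * (p : ℂ) ^ (-s) +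
      (if (p : ℤ) ∣ (WN m).Δ then 0 else (p : ℂ) ^ (1 - 2 * s)))⁻¹ =
    (1 - (ap (WN m) p : ℂ) * (p : ℂ) ^ (-s) + u m p * ((p : ℂ) ^ (-s)) ^ 2)⁻¹ := by
  unfold u
  split_ifs
  · rw [zero_mul]
  · rw [prime_cpow p hp.ne_zero]

theorem factor_one (m : ℤ) (v : HeightOneSpectrum (𝓞 K)) (h : deg v = 1) (s : ℂ) :
    factor (WN m) s v = (1 - (ap (WN m) (below v) : ℂ) * ((below v : ℕ) : ℂ) ^ (-s) +
      u m (below v) * (((below v : ℕ) : ℂ) ^ (-s)) ^ 2)⁻¹ := by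
  rw [← eul_eq m (below v).2]
  unfold Pool.Agent.Y682.XF.factor
  rw [a_one _ v h, nm_cpow, nm_cpow, h, pow_one, pow_one]
  simp only [intCast_mem_iff]

theorem factor_two {m : ℤ} (hm : m % 4 = 1) (v : HeightOneSpectrum (𝓞 K)) (h : deg v = 2)
    (h15 : ¬ (below v : ℕ) ∣ 15) (s : ℂ) :
    factor (WN m) s v = (1 - ((ap (WN m) (below v) : ℂ) ^ 2 - 2 * u m (below v)) *
      (((below v : ℕ) : ℂ) ^ (-s)) ^ 2 +
      (u m (below v)) ^ 2 * (((below v : ℕ) : ℂ) ^ (-s)) ^ 4)⁻¹ := by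
  unfold Pool.Agent.Y682.XF.factor u
  rw [a_two hm v h h15, nm_cpow, nm_cpow, h]
  simp only [intCast_mem_iff]
  rw [prime_cpow _ (below v).2.ne_zero]
  split_ifs
  · push_cast
    ring_nf
  · push_cast
    ring_nf

variable {D : ℤ} {d : K}

open Pool.Agent.N106.QB.Dec (Qd split_cases)

/-- the product over the places above `p` -/
lemma prod_above (h : Qd D K d) (p : Nat.Primes) (F : HeightOneSpectrum (𝓞 K) → ℂ) (G : ℕ → ℂ)
    (hF : ∀ v, below v = p → (deg v = 2 → kr D p = -1) → F v = G (deg v)) :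
    (kr D p = 1 ∧ ∏ v : {v : HeightOneSpectrum (𝓞 K) // below v = p}, F v.1 = G 1 * G 1) ∨
    (kr D p = -1 ∧ ∏ v : {v : HeightOneSpectrum (𝓞 K) // below v = p}, F v.1 = G 2) ∨
    (kr D p = 0 ∧ ∏ v : {v : HeightOneSpectrum (𝓞 K) // below v = p}, F v.1 = G 1) := by
  classical
  rcases split_cases h p with
    ⟨hk, v, w, hne, hv, hw, dv, dw, hall⟩ | ⟨hk, v, hv, dv, hall⟩ | ⟨hk, v, hv, dv, hall⟩
  · left
    refine ⟨hk, ?_⟩
    have hu : (Finset.univ : Finset {v : HeightOneSpectrum (𝓞 K) // below v = p}) =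
        {⟨v, hv⟩, ⟨w, hw⟩} := by
      ext u
      simp only [Finset.mem_univ, Finset.mem_insert, Finset.mem_singleton, true_iff]
      rcases hall u.1 u.2 with h | h
      · exact Or.inl (Subtype.ext h)
      · exact Or.inr (Subtype.ext h)
    rw [hu, Finset.prod_pair (fun h => hne (congrArg Subtype.val h)), hF v hv (by omega),
      hF w hw (by omega), dv, dw]
  · right; left
    refine ⟨hk, ?_⟩
    have hu : (Finset.univ : Finset {v : HeightOneSpectrum (𝓞 K) // below v = p}) =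
        {⟨v, hv⟩} := by
      ext u
      simp only [Finset.mem_univ, Finset.mem_singleton, true_iff]
      exact Subtype.ext (hall u.1 u.2)
    rw [hu, Finset.prod_singleton, hF v hv (fun _ => hk), dv]
  · right; right
    refine ⟨hk, ?_⟩
    have hu : (Finset.univ : Finset {v : HeightOneSpectrum (𝓞 K) // below v = p}) =
        {⟨v, hv⟩} := by
      ext u
      simp only [Finset.mem_univ, Finset.mem_singleton, true_iff]
      exact Subtype.ext (hall u.1 u.2)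
    rw [hu, Finset.prod_singleton, hF v hv (by omega), dv]

theorem u_twist {m : ℤ} (hm : m % 4 = 1) (hD : D % 4 = 1) {p : ℕ} (hp : p.Prime)
    (h : ¬ (p : ℤ) ∣ D) : u (m * D) p = u m p := by
  have hmD : (m * D) % 4 = 1 := by rw [Int.mul_emod, hm, hD]; norm_num
  have hpZ : Prime ((p : ℕ) : ℤ) := Nat.prime_iff_prime_int.1 hp
  unfold u
  simp only [dvd_Δ hm hp, dvd_Δ hmD hp, hpZ.dvd_mul, or_iff_left h]

theorem kr_ne {p : ℕ} (hp : p.Prime) (hD : D % 4 = 1) (h : kr D p ≠ 0) : ¬ (p : ℤ) ∣ D := by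
  intro h1
  apply h
  have hF : Fact p.Prime := ⟨hp⟩
  unfold kr
  have hp2 : p ≠ 2 := by
    rintro rfl
    push_cast at h1
    omega
  rw [if_neg hp2, ← jacobiSym.legendreSym.to_jacobiSym, legendreSym.eq_zero_iff]
  exact (ZMod.intCast_zmod_eq_zero_iff_dvd _ _).2 h1

/-- the local identity -/
lemma local_eq (h : Qd D K d) {m : ℤ} (hm : m % 4 = 1) (p : Nat.Primes)
    (h15 : (p : ℕ) ∣ 15 → kr D p ≠ -1) (s : ℂ) :
    (1 - (ap (WN m) p : ℂ) * ((p : ℕ) : ℂ) ^ (-s) +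
      (if ((p : ℕ) : ℤ) ∣ (WN m).Δ then 0 else ((p : ℕ) : ℂ) ^ (1 - 2 * s)))⁻¹ *
    (1 - (ap (WN (m * D)) p : ℂ) * ((p : ℕ) : ℂ) ^ (-s) +
      (if ((p : ℕ) : ℤ) ∣ (WN (m * D)).Δ then 0 else ((p : ℕ) : ℂ) ^ (1 - 2 * s)))⁻¹ =
    ∏ v : {v : HeightOneSpectrum (𝓞 K) // below v = p}, factor (WN m) s v.1 := by
  have hp := p.2
  have hmD : (m * D) % 4 = 1 := by rw [Int.mul_emod, hm, h.m4]; norm_num
  rw [eul_eq m hp, eul_eq (m * D) hp, ap_twist hm h.m4 hp]
  set G : ℕ → ℂ := fun n => if n = 1 then (1 - (ap (WN m) p : ℂ) * ((p : ℕ) : ℂ) ^ (-s) +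
      u m p * (((p : ℕ) : ℂ) ^ (-s)) ^ 2)⁻¹ else
      (1 - ((ap (WN m) p : ℂ) ^ 2 - 2 * u m p) * (((p : ℕ) : ℂ) ^ (-s)) ^ 2 +
      (u m p) ^ 2 * (((p : ℕ) : ℂ) ^ (-s)) ^ 4)⁻¹ with hG
  have hF : ∀ v : HeightOneSpectrum (𝓞 K), below v = p → (deg v = 2 → kr D p = -1) →
      factor (WN m) s v = G (deg v) := by
    intro v hv hk
    have hdeg := (Pool.Agent.R475.LP.deg_le (Pool.Agent.N106.QB.Dec.fin2 h) v).1
    rcases hdeg with h1 | h1
    · rw [factor_one m v h1, hG]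
      simp only [h1, if_true, hv]
    · rw [factor_two hm v h1 (by
        rw [hv]
        exact fun h2 => h15 h2 (hk h1)), hG]
      simp only [h1, hv]
      norm_num
  rcases prod_above h p (factor (WN m) s) G hF with ⟨hk, e⟩ | ⟨hk, e⟩ | ⟨hk, e⟩
  · rw [e, hk, u_twist hm h.m4 hp (kr_ne hp h.m4 (by rw [hk]; norm_num))]
    simp only [hG, if_true]
    push_cast
    rw [one_mul]
  · rw [e, hk, u_twist hm h.m4 hp (kr_ne hp h.m4 (by rw [hk]; norm_num))]
    simp only [hG, show ((2 : ℕ) = 1) = False by norm_num, if_false]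
    push_cast
    rw [← mul_inv]
    congr 1
    ring
  · have hpD := (Pool.Agent.R475.LP.kr_null hp hk).1
    have hu : u (m * D) p = 0 := by
      unfold u
      rw [if_pos ((dvd_Δ hmD hp).2 (Or.inr (Dvd.dvd.mul_left hpD _)))]
    rw [e, hk, hu]
    simp only [hG, if_true]
    push_cast
    simp

/-- absolute convergence -/
theorem multipliable_factor {m : ℤ} (hm : m % 4 = 1) (hm0 : m ≠ 0) (s : ℂ) (hs : 3 / 2 < s.re) :
    Multipliable (factor (K := K) (WN m) s) := by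
  have hsum := nm_summable (K := K) (x := s.re - 1 / 2) (by linarith)
  have hgood : ∀ v : HeightOneSpectrum (𝓞 K), ¬ ((below v : ℕ) : ℤ) ∣ 30 * m →
      factor (WN m) s v = fac (A m) (B m) 1 (fun _ => 0) s v ∧
      ¬ ((below v : ℕ) : ℤ) ∣ 2 * (4 * A m ^ 3 + 27 * B m ^ 2) := by
    intro v hv
    have hp := (below v).2
    have hpZ : Prime ((below v : ℕ) : ℤ) := Nat.prime_iff_prime_int.1 hp
    rw [hpZ.dvd_mul, not_or] at hv
    obtain ⟨h30, hpm⟩ := hv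
    have h2 : (below v : ℕ) ≠ 2 := by
      intro h0
      apply h30
      rw [h0]
      norm_num
    have h15 : ¬ (below v : ℕ) ∣ 15 := by
      intro h0
      apply h30
      have h1 : ((below v : ℕ) : ℤ) ∣ 15 := by exact_mod_cast h0
      exact h1.trans (by norm_num)
    have hg := good_AB (m := m) hp h2 h15 hpm
    refine ⟨?_, hg⟩
    unfold Pool.Agent.Y682.XF.factor W165.CE.fac
    rw [if_neg (fun h => hg ((intCast_mem_iff v _).1 h)), a_short hm v h2 h15, if_neg]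
    rw [intCast_mem_iff, dvd_Δ hm hp, not_or]
    exact ⟨h15, hpm⟩
  have h1 : Summable (fun v : HeightOneSpectrum (𝓞 K) => ‖factor (WN m) s v - 1‖) := by
    refine Summable.of_norm_bounded_eventually (hsum.mul_left 6) ?_
    have h2 := hsum.tendsto_cofinite_zero.eventually (Iio_mem_nhds (by norm_num : (0 : ℝ) < 1 / 6))
    have h3 : ∀ᶠ v : HeightOneSpectrum (𝓞 K) in cofinite,
        ¬ ((below v : ℕ) : ℤ) ∣ 30 * m := by
      rw [Filter.eventually_cofinite]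
      simp only [not_not]
      exact finite_bad _ (mul_ne_zero (by norm_num) hm0)
    filter_upwards [h2, h3] with v hv hv3
    rw [norm_norm, (hgood v hv3).1]
    exact fac_sub_bound v (hgood v hv3).2 s hs (le_of_lt hv)
  have h2 := multipliable_one_add_of_summable h1
  refine h2.congr (fun v => ?_)
  ring

end

end Pool.Agent.N106.QB.Lp

namespace Pool.Agent.N106.QB

open Pool.Agent.N856.QB

/-- **QB-LPR** -/
theorem t_LPR : S_LPR := by
  classical
  intro n d hy K _ _ r hq s f g hs hf hg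
  obtain ⟨hsq, hd12, hd5⟩ := hy.hd
  have hd1 := hy.h1
  have hn := hy.hn.2
  have hn0 : n ≠ 0 := hy.hn.1.ne_zero
  have h : Dec.Qd (d : ℤ) K r :=
    { sqf := Int.squarefree_natCast.2 hsq
      m4 := by omega
      ne1 := by exact_mod_cast (by omega : d ≠ 1)
      hd := by rw [hq.hr]; push_cast; rfl
      hK := hq.hK }
  have hm : (-(n : ℤ)) % 4 = 1 := by omega
  have hmd : (-((n * d : ℕ) : ℤ)) = -(n : ℤ) * (d : ℤ) := by push_cast; ring
  have h15 : ∀ p : Nat.Primes, (p : ℕ) ∣ 15 → Pool.Agent.Y682.XF.kr (d : ℤ) p ≠ -1 := by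
    intro p hp
    have h1 : (p : ℕ) ∣ 3 * 5 := hp
    have hc : (p : ℕ) = 3 ∨ (p : ℕ) = 5 := by
      rcases p.2.dvd_mul.1 h1 with h2 | h2
      · exact Or.inl ((Nat.prime_dvd_prime_iff_eq p.2 (by norm_num)).1 h2)
      · exact Or.inr ((Nat.prime_dvd_prime_iff_eq p.2 (by norm_num)).1 h2)
    intro hk
    rcases hc with hc | hc
    · have hex := Pool.Agent.R475.LP.kr_neg h.m4 p.2 hk
      rw [hc] at hex
      obtain ⟨j, hj⟩ : ∃ j : ℕ, d = 12 * j + 1 := ⟨d / 12, by omega⟩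
      have e : ((d : ℤ) - 1) / 4 = 3 * j := by omega
      exact hex 0 ⟨-(j : ℤ), by rw [e]; push_cast; ring⟩
    · unfold Pool.Agent.Y682.XF.kr at hk
      rw [hc] at hk
      rw [if_neg (by norm_num)] at hk
      have : Fact (Nat.Prime 5) := ⟨by norm_num⟩
      rcases hd5 with h5 | h5
      · rw [jacobiSym.mod_left, show ((d : ℕ) : ℤ) % ((5 : ℕ) : ℤ) = 1 by omega,
          jacobiSym.one_left] at hk
        norm_num at hk
      · rw [jacobiSym.mod_left, show ((d : ℕ) : ℤ) % ((5 : ℕ) : ℤ) = 2 ^ 2 by omega,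
          jacobiSym.sq_one' (by norm_num)] at hk
        norm_num at hk
  have h1 : HasProd (fun p : Nat.Primes =>
      ∏ v : {v : HeightOneSpectrum (𝓞 K) // Pool.Agent.H921R2.TatePole.below v = p},
        Pool.Agent.Y682.XF.factor (Pool.Agent.N875.X15.WN (-(n : ℤ))) s v.1) (f * g) := by
    unfold Eul at hf hg
    rw [hmd] at hg
    have h2 := HasProd.mul hf hg
    convert h2 using 1
    funext p
    exact (Lp.local_eq h hm p (h15 p) s).symm
  have h3 : Multipliable (Pool.Agent.Y682.XF.factor (K := K) (Pool.Agent.N875.X15.WN (-(n : ℤ))) s) :=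
    Lp.multipliable_factor hm (by omega) s hs
  rw [← (Equiv.sigmaFiberEquiv (Pool.Agent.H921R2.TatePole.below (K := K))).hasProd_iff]
  refine HasProd.sigma_of_hasProd h1 (fun p => ?_) ?_
  · exact hasProd_fintype _
  · exact (Equiv.sigmaFiberEquiv (Pool.Agent.H921R2.TatePole.below (K := K))).multipliable_iff.2 h3

end Pool.Agent.N106.QB
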