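import Pool.Agent.Y641.XF.Tam
import Pool.Agent.N875.X15.Min

/-!
# The group of the points with nonsingular reduction of the twists of `X_0(15)` over discretely valued
fields
-/

set_option autoImplicit false
set_option linter.unusedSectionVars false

namespace Pool.Agent.N106.QB

open scoped Classical
open WeierstrassCurve
open Pool.Agent.Y809.BSD14 (nadd nsub nmul npow nneg ladd lsub lneg lmul lmul' norm_eq_of_lt nnat Sg
  index_of)
open Pool.Agent.Y641.XF (Ns HH mem_HH Dsc)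

section alg

variable {K : Type} [Field K] {W : WeierstrassCurve.Affine K} {a b c : K}

/-- with `X = 4 x`, `Y = 4 (2 y + x)` the equation is `Y² = (X - a) (X - b) (X - c)` -/
structure IsN (W : WeierstrassCurve.Affine K) (a b c : K) : Prop where
  a1 : W.a₁ = 1
  a2 : 4 * W.a₂ = -(a + b + c) - 1
  a3 : W.a₃ = 0
  a4 : 16 * W.a₄ = a * b + a * c + b * c
  a6 : 64 * W.a₆ = -(a * b * c)

theorem IsN.rot (h : IsN W a b c) : IsN W b c a :=
  ⟨h.a1, by rw [h.a2]; ring, h.a3, by rw [h.a4]; ring, by rw [h.a6]; ring⟩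

theorem IsN.eqn (h : IsN W a b c) {x y : K} (hE : W.Equation x y) :
    (4 * (2 * y + x)) ^ 2 = (4 * x - a) * (4 * x - b) * (4 * x - c) := by
  rw [Affine.equation_iff, h.a1, h.a3] at hE
  linear_combination 64 * hE + 16 * x ^ 2 * h.a2 + 4 * x * h.a4 + h.a6

theorem IsN.der (h : IsN W a b c) (x y : K) :
    (4 * x - a) * (4 * x - b) + (4 * x - a) * (4 * x - c) + (4 * x - b) * (4 * x - c) =
      -8 * (2 * (W.a₁ * y - (3 * x ^ 2 + 2 * W.a₂ * x + W.a₄)) - (2 * y + W.a₁ * x + W.a₃)) := by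
  rw [h.a1, h.a3]
  linear_combination (-8 * x) * h.a2 - h.a4

theorem IsN.nonsing (h : IsN W a b c) (h2 : (2 : K) ≠ 0) (hab : a - b ≠ 0) (hac : a - c ≠ 0) :
    W.Nonsingular (a / 4) (-a / 8) := by
  have h4 : (4 : K) ≠ 0 := by
    have : (4 : K) = 2 ^ 2 := by norm_num
    rw [this]
    exact pow_ne_zero _ h2
  have h8 : (8 : K) ≠ 0 := by
    have : (8 : K) = 2 ^ 3 := by norm_num
    rw [this]
    exact pow_ne_zero _ h2
  have h64 : (64 : K) ≠ 0 := by
    have : (64 : K) = 2 ^ 6 := by norm_num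
    rw [this]
    exact pow_ne_zero _ h2
  have e4 : 4 * (a / 4) = a := by field_simp
  have e8 : 8 * (-a / 8) = -a := by field_simp
  set x := a / 4 with hx
  set y := -a / 8 with hy
  rw [Affine.nonsingular_iff, Affine.equation_iff]
  have e2 : 2 * y + x = 0 := by
    have : (4 : K) * (2 * y + x) = 0 := by linear_combination e8 + e4
    exact (mul_eq_zero.1 this).resolve_left h4
  constructor
  · rw [h.a1, h.a3]
    apply mul_left_cancel₀ h64
    have e3 : 4 * x - a = 0 := by rw [e4, sub_self]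
    linear_combination (16 * (2 * y + x)) * e2 - 16 * x ^ 2 * h.a2 - 4 * x * h.a4 - h.a6 -
      (4 * x - b) * (4 * x - c) * e3
  · left
    intro h0
    have hd := h.der x y
    rw [sub_eq_zero.2 h0, h.a1, h.a3] at hd
    have e3 : 2 * y + 1 * x + 0 = 0 := by linear_combination e2
    rw [e3, e4, sub_self, mul_zero, sub_self, mul_zero, zero_mul, zero_mul, zero_add, zero_add] at hd
    exact mul_ne_zero hab hac hd

theorem IsN.addT (h : IsN W a b c) (h2 : (2 : K) ≠ 0) {x y : K} (hP : W.Nonsingular x y)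
    (hT : W.Nonsingular (a / 4) (-a / 8)) (hx : 4 * x - a ≠ 0) :
    ∃ X Y H, (Affine.Point.some x y hP + Affine.Point.some (a / 4) (-a / 8) hT : W.Point) =
      Affine.Point.some X Y H ∧ 4 * X - a = (a - b) * (a - c) / (4 * x - a) := by
  have h4 : (4 : K) ≠ 0 := by
    have : (4 : K) = 2 ^ 2 := by norm_num
    rw [this]
    exact pow_ne_zero _ h2
  have h8 : (8 : K) ≠ 0 := by
    have : (8 : K) = 2 ^ 3 := by norm_num
    rw [this]
    exact pow_ne_zero _ h2
  have hne : x ≠ a / 4 := by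
    rintro rfl
    apply hx
    field_simp
    ring
  have hne' : x - a / 4 ≠ 0 := sub_ne_zero.2 hne
  rw [Affine.Point.add_of_X_ne hne]
  refine ⟨_, _, _, rfl, ?_⟩
  rw [Affine.addX, h.a1]
  set l := W.slope x (a / 4) y (-a / 8) with hl
  have hl2 : 2 * l + 1 = 4 * (2 * y + x) / (4 * x - a) := by
    have hlt : l * (x - a / 4) = y - -a / 8 := by
      rw [hl, Affine.slope_of_X_ne hne, div_mul_cancel₀ _ hne']
    have e4 : 4 * (a / 4) = a := by field_simp
    have e8 : 8 * (-a / 8) = -a := by field_simp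
    rw [eq_div_iff hx]
    linear_combination 8 * hlt + (2 * l) * e4 - e8
  have e1 : 4 * (l ^ 2 + 1 * l - W.a₂ - x - a / 4) - a =
      (2 * l + 1) ^ 2 + (a + b + c) - 4 * x - 2 * a := by
    have e4 : 4 * (a / 4) = a := by field_simp
    linear_combination (-1) * h.a2 - e4
  rw [e1, hl2, div_pow, h.eqn hP.1]
  field_simp
  ring

theorem IsN.dbl (h : IsN W a b c) (h2 : (2 : K) ≠ 0) (hT : W.Nonsingular (a / 4) (-a / 8)) :
    (Affine.Point.some (a / 4) (-a / 8) hT + Affine.Point.some (a / 4) (-a / 8) hT : W.Point) = 0 := by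
  have h8 : (8 : K) ≠ 0 := by
    have : (8 : K) = 2 ^ 3 := by norm_num
    rw [this]
    exact pow_ne_zero _ h2
  have h4 : (4 : K) ≠ 0 := by
    have : (4 : K) = 2 ^ 2 := by norm_num
    rw [this]
    exact pow_ne_zero _ h2
  refine Affine.Point.add_of_Y_eq rfl ?_
  rw [Affine.negY, h.a1, h.a3]
  field_simp
  norm_num

/-- a point with `X = a` is the point of order two -/
theorem IsN.eq_T (h : IsN W a b c) (h2 : (2 : K) ≠ 0) {x y : K} (hP : W.Nonsingular x y)
    (hT : W.Nonsingular (a / 4) (-a / 8)) (hx : 4 * x - a = 0) :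
    (Affine.Point.some x y hP : W.Point) = Affine.Point.some (a / 4) (-a / 8) hT := by
  have h8 : (8 : K) ≠ 0 := by
    have : (8 : K) = 2 ^ 3 := by norm_num
    rw [this]
    exact pow_ne_zero _ h2
  have h4 : (4 : K) ≠ 0 := by
    have : (4 : K) = 2 ^ 2 := by norm_num
    rw [this]
    exact pow_ne_zero _ h2
  have e1 := h.eqn hP.1
  rw [hx, zero_mul, zero_mul] at e1
  have e2 : 4 * (2 * y + x) = 0 := by
    exact pow_eq_zero_iff two_ne_zero |>.1 e1
  have ex : x = a / 4 := by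
    rw [eq_div_iff h4]
    linear_combination hx
  have ey : y = -a / 8 := by
    rw [eq_div_iff h8]
    linear_combination e2 - hx
  subst ex
  subst ey
  rfl

end alg

section norm

variable {K : Type} [NormedField K] [IsUltrametricDist K] {W : WeierstrassCurve.Affine K} {a b c : K}

theorem norm_four (h2 : ‖(2 : K)‖ = 1) : ‖(4 : K)‖ = 1 := by
  have : (4 : K) = 2 ^ 2 := by norm_num
  rw [this, norm_pow, h2, one_pow]

theorem norm_eight (h2 : ‖(2 : K)‖ = 1) : ‖(8 : K)‖ = 1 := by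
  have : (8 : K) = 2 ^ 3 := by norm_num
  rw [this, norm_pow, h2, one_pow]

theorem lt_of_sq {y : K} (h : ‖y ^ 2‖ < 1) : ‖y‖ < 1 := by
  rw [norm_pow] at h
  by_contra hcon
  push Not at hcon
  nlinarith

theorem lt_or_lt {s t : K} (h : ‖s * t‖ < 1) : ‖s‖ < 1 ∨ ‖t‖ < 1 := by
  by_contra hcon
  push Not at hcon
  rw [norm_mul] at h
  nlinarith [hcon.1, hcon.2]

/-- the points which have singular reduction -/
theorem IsN.sg_iff (h : IsN W a b c) (h2 : ‖(2 : K)‖ = 1) (ha : ‖a‖ ≤ 1) (hb : ‖b‖ ≤ 1)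
    (hc : ‖c‖ ≤ 1) {x y : K} (hP : W.Equation x y) :
    Sg W.a₁ W.a₂ W.a₃ W.a₄ x y ↔ ‖4 * x‖ ≤ 1 ∧ ((‖4 * x - a‖ < 1 ∧ ‖4 * x - b‖ < 1) ∨
      (‖4 * x - a‖ < 1 ∧ ‖4 * x - c‖ < 1) ∨ (‖4 * x - b‖ < 1 ∧ ‖4 * x - c‖ < 1)) := by
  have n4 := norm_four h2
  have n8 := norm_eight h2
  have e := h.eqn hP
  have d := h.der x y
  set u := 4 * x - a with hu
  set v := 4 * x - b with hv
  set w := 4 * x - c with hw
  have nd : ‖u * v + u * w + v * w‖ = ‖2 * (W.a₁ * y - (3 * x ^ 2 + 2 * W.a₂ * x + W.a₄)) -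
      (2 * y + W.a₁ * x + W.a₃)‖ := by
    rw [d, norm_mul, norm_neg, n8, one_mul]
  have nY : ‖4 * (2 * y + x)‖ = ‖2 * y + W.a₁ * x + W.a₃‖ := by
    rw [norm_mul, n4, one_mul, h.a1, h.a3, one_mul, add_zero]
  constructor
  · intro hs
    have hx : ‖4 * x‖ ≤ 1 := by rw [norm_mul, n4, one_mul]; exact hs.x1
    have iu : ‖u‖ ≤ 1 := nsub hx ha
    have iv : ‖v‖ ≤ 1 := nsub hx hb
    have iw : ‖w‖ ≤ 1 := nsub hx hc
    have q1 : ‖u * v + u * w + v * w‖ < 1 := by
      rw [nd]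
      exact lsub (lmul h2.le hs.fx) hs.fy
    have q2 : ‖u * v * w‖ < 1 := by
      rw [← e, norm_pow, nY]
      exact pow_lt_one₀ (norm_nonneg _) hs.fy two_ne_zero
    refine ⟨hx, ?_⟩
    rcases lt_or_lt q2 with q3 | q3
    · rcases lt_or_lt q3 with q4 | q4
      · have : ‖v * w‖ < 1 := by
          have e2 : v * w = (u * v + u * w + v * w) - u * (v + w) := by ring
          rw [e2]
          exact lsub q1 (lmul' q4 (nadd iv iw))
        rcases lt_or_lt this with q5 | q5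
        · exact Or.inl ⟨q4, q5⟩
        · exact Or.inr (Or.inl ⟨q4, q5⟩)
      · have : ‖u * w‖ < 1 := by
          have e2 : u * w = (u * v + u * w + v * w) - v * (u + w) := by ring
          rw [e2]
          exact lsub q1 (lmul' q4 (nadd iu iw))
        rcases lt_or_lt this with q5 | q5
        · exact Or.inl ⟨q5, q4⟩
        · exact Or.inr (Or.inr ⟨q4, q5⟩)
    · have : ‖u * v‖ < 1 := by
        have e2 : u * v = (u * v + u * w + v * w) - w * (u + v) := by ring
        rw [e2]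
        exact lsub q1 (lmul' q3 (nadd iu iv))
      rcases lt_or_lt this with q5 | q5
      · exact Or.inr (Or.inl ⟨q5, q3⟩)
      · exact Or.inr (Or.inr ⟨q5, q3⟩)
  · rintro ⟨hx, hh⟩
    have iu : ‖u‖ ≤ 1 := nsub hx ha
    have iv : ‖v‖ ≤ 1 := nsub hx hb
    have iw : ‖w‖ ≤ 1 := nsub hx hc
    have ix : ‖x‖ ≤ 1 := by rwa [norm_mul, n4, one_mul] at hx
    have hh2 : ‖u * v * w‖ < 1 ∧ ‖u * v + u * w + v * w‖ < 1 := by
      rcases hh with ⟨c1, c2⟩ | ⟨c1, c2⟩ | ⟨c1, c2⟩
      · exact ⟨lmul' (lmul' c1 iv) iw, ladd (ladd (lmul' c1 iv) (lmul' c1 iw)) (lmul' c2 iw)⟩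
      · exact ⟨lmul' (lmul' c1 iv) iw, ladd (ladd (lmul' c1 iv) (lmul' c1 iw)) (lmul iv c2)⟩
      · exact ⟨lmul' (lmul iu c1) iw, ladd (ladd (lmul iu c1) (lmul iu c2)) (lmul' c1 iw)⟩
    have fy : ‖2 * y + W.a₁ * x + W.a₃‖ < 1 := by
      rw [← nY]
      apply lt_of_sq
      rw [e]
      exact hh2.1
    have fx : ‖W.a₁ * y - (3 * x ^ 2 + 2 * W.a₂ * x + W.a₄)‖ < 1 := by
      have q1 := hh2.2
      rw [nd] at q1
      have q2 : ‖2 * (W.a₁ * y - (3 * x ^ 2 + 2 * W.a₂ * x + W.a₄))‖ < 1 := by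
        have e2 : 2 * (W.a₁ * y - (3 * x ^ 2 + 2 * W.a₂ * x + W.a₄)) =
          (2 * (W.a₁ * y - (3 * x ^ 2 + 2 * W.a₂ * x + W.a₄)) - (2 * y + W.a₁ * x + W.a₃)) +
            (2 * y + W.a₁ * x + W.a₃) := by ring
        rw [e2]
        exact ladd q1 fy
      rwa [norm_mul, h2, one_mul] at q2
    refine ⟨ix, ?_, fx, fy⟩
    have e2 : 2 * y = (2 * y + W.a₁ * x + W.a₃) - x := by
      rw [h.a1, h.a3]
      ring
    have q3 : ‖2 * y‖ ≤ 1 := by
      rw [e2]
      exact nsub fy.le ix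
    rwa [norm_mul, h2, one_mul] at q3

/-- good reduction, residue characteristic not two -/
theorem IsN.good (h : IsN W a b c) (h2 : ‖(2 : K)‖ = 1) (ha : ‖a‖ ≤ 1) (hb : ‖b‖ ≤ 1)
    (hc : ‖c‖ ≤ 1) (hab : ‖a - b‖ = 1) (hac : ‖a - c‖ = 1) (hbc : ‖b - c‖ = 1) : HH W = ⊤ := by
  rw [eq_top_iff]
  intro P _
  apply AddSubgroup.subset_closure
  intro x y hn _ hs
  rw [h.sg_iff h2 ha hb hc hn.1] at hs
  rcases hs.2 with ⟨c1, c2⟩ | ⟨c1, c2⟩ | ⟨c1, c2⟩
  · have := lsub c2 c1
    have e : (4 * x - b) - (4 * x - a) = a - b := by ring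
    rw [e, hab] at this
    exact lt_irrefl _ this
  · have := lsub c2 c1
    have e : (4 * x - c) - (4 * x - a) = a - c := by ring
    rw [e, hac] at this
    exact lt_irrefl _ this
  · have := lsub c2 c1
    have e : (4 * x - c) - (4 * x - b) = b - c := by ring
    rw [e, hbc] at this
    exact lt_irrefl _ this

/-- good reduction, residue characteristic two -/
theorem good_two (h1 : W.a₁ = 1) (h3 : W.a₃ = 0) (h6 : W.a₆ = 0) (i2 : ‖W.a₂‖ ≤ 1)
    (i4 : ‖W.a₄‖ = 1) (h2 : ‖(2 : K)‖ < 1) : HH W = ⊤ := by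
  rw [eq_top_iff]
  intro P _
  apply AddSubgroup.subset_closure
  intro x y hn _ hs
  have hE := hn.1
  rw [Affine.equation_iff, h1, h3, h6] at hE
  have fy := hs.fy
  have fx := hs.fx
  rw [h1, h3] at fy
  rw [h1] at fx
  have hx : ‖x‖ < 1 := by
    have e : x = (2 * y + 1 * x + 0) - 2 * y := by ring
    rw [e]
    exact lsub fy (lmul' h2 hs.y1)
  have i3 : ‖(3 : K)‖ ≤ 1 := by exact_mod_cast nnat (K := K) 3
  have hq : ‖3 * x ^ 2 + 2 * W.a₂ * x‖ < 1 := by
    refine ladd (lmul i3 ?_) (lmul (nmul h2.le i2) hx)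
    rw [norm_pow]
    exact pow_lt_one₀ (norm_nonneg _) hx two_ne_zero
  have hy4 : ‖y - W.a₄‖ < 1 := by
    have e : y - W.a₄ = (1 * y - (3 * x ^ 2 + 2 * W.a₂ * x + W.a₄)) + (3 * x ^ 2 + 2 * W.a₂ * x) := by
      ring
    rw [e]
    exact ladd fx hq
  have hy : ‖y‖ < 1 := by
    apply lt_of_sq
    have e : y ^ 2 = x * (x ^ 2 + W.a₂ * x + W.a₄ - y) := by linear_combination hE
    rw [e]
    refine lmul' hx ?_
    exact nsub (nadd (nadd (npow hx.le 2) (nmul i2 hx.le)) i4.le) hs.y1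
  have : ‖W.a₄‖ < 1 := by
    have e : W.a₄ = y - (y - W.a₄) := by ring
    rw [e]
    exact lsub hy hy4
  rw [i4] at this
  exact lt_irrefl _ this

theorem ne_zero_of_norm {z : K} {r : ℝ} (hr : r ≠ 0) (h : ‖z‖ = r) : z ≠ 0 := by
  rintro rfl
  rw [norm_zero] at h
  exact hr h.symm

/-- additive reduction: all the points of order two represent the components -/
theorem IsN.ram (h : IsN W a b c) (hd : Dsc K) (h2 : ‖(2 : K)‖ = 1) (ha : ‖a‖ < 1) (hb : ‖b‖ < 1)
    (hc : ‖c‖ < 1) (hab : ‖a - b‖ = 1 / 2) (hac : ‖a - c‖ = 1 / 2) (hbc : ‖b - c‖ = 1 / 2)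
    (i2 : ‖W.a₂‖ ≤ 1) (i4 : ‖W.a₄‖ ≤ 1) : (HH W).index = 4 := by
  have z2 : (2 : K) ≠ 0 := ne_zero_of_norm one_ne_zero h2
  have nab : a - b ≠ 0 := ne_zero_of_norm (by norm_num) hab
  have nac : a - c ≠ 0 := ne_zero_of_norm (by norm_num) hac
  have nbc : b - c ≠ 0 := ne_zero_of_norm (by norm_num) hbc
  have nba : b - a ≠ 0 := by rw [← neg_sub]; exact neg_ne_zero.2 nab
  have nca : c - a ≠ 0 := by rw [← neg_sub]; exact neg_ne_zero.2 nac
  have ncb : c - b ≠ 0 := by rw [← neg_sub]; exact neg_ne_zero.2 nbc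
  have i1 : ‖W.a₁‖ ≤ 1 := by rw [h.a1, norm_one]
  have i3 : ‖W.a₃‖ ≤ 1 := by rw [h.a3, norm_zero]; exact zero_le_one
  have mem : ∀ P : W.Point, P ∈ HH W ↔ Ns W P := fun P => mem_HH i1 i2 i3 i4
  have hTa := h.nonsing z2 nab nac
  have hTb := h.rot.nonsing z2 nbc nba
  have hTc := h.rot.rot.nonsing z2 nca ncb
  have sg : ∀ {x y : K}, W.Nonsingular x y → (Sg W.a₁ W.a₂ W.a₃ W.a₄ x y ↔ ‖4 * x‖ < 1) := by
    intro x y hn
    rw [h.sg_iff h2 ha.le hb.le hc.le hn.1]
    constructor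
    · rintro ⟨-, ⟨c1, -⟩ | ⟨c1, -⟩ | ⟨c1, -⟩⟩
      · have := ladd c1 ha
        rwa [sub_add_cancel] at this
      · have := ladd c1 ha
        rwa [sub_add_cancel] at this
      · have := ladd c1 hb
        rwa [sub_add_cancel] at this
    · intro hx
      exact ⟨hx.le, Or.inl ⟨lsub hx ha, lsub hx hb⟩⟩
  have notin : ∀ {x y : K} (hn : W.Nonsingular x y), ‖4 * x‖ < 1 →
      (Affine.Point.some x y hn : W.Point) ∉ HH W := by
    intro x y hn hx hm
    rw [mem] at hm
    exact hm x y hn rfl ((sg hn).2 hx)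
  have isin : ∀ {x y : K} (hn : W.Nonsingular x y), 1 ≤ ‖4 * x‖ →
      (Affine.Point.some x y hn : W.Point) ∈ HH W := by
    intro x y hn hx
    rw [mem]
    intro x' y' hn' he hs
    obtain ⟨e1, e2⟩ := Affine.Point.some.inj he
    subst e1
    subst e2
    exact absurd ((sg hn).1 hs) (not_lt.2 hx)
  have n4 := norm_four h2
  have e4 : ∀ t : K, 4 * (t / 4) = t := by
    intro t
    have : (4 : K) ≠ 0 := ne_zero_of_norm one_ne_zero n4
    field_simp
  -- translation
  have trans : ∀ {a b c : K} (h : IsN W a b c) (hT : W.Nonsingular (a / 4) (-a / 8)),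
      ‖a‖ < 1 → ‖a - b‖ = 1 / 2 → ‖a - c‖ = 1 / 2 → ∀ {x y : K} (hn : W.Nonsingular x y),
      ‖4 * x - a‖ ≤ 1 / 4 →
      (Affine.Point.some x y hn + Affine.Point.some (a / 4) (-a / 8) hT : W.Point) ∈ HH W := by
    intro a b c h hT ha hab hac x y hn hle
    by_cases h0 : 4 * x - a = 0
    · rw [h.eq_T z2 hn hT h0, h.dbl z2 hT]
      exact zero_mem _
    · obtain ⟨X, Y, H, e, hX⟩ := h.addT z2 hn hT h0
      rw [e]
      apply isin
      have h5 : 1 ≤ ‖4 * X - a‖ := by
        rw [hX, norm_div, norm_mul, hab, hac, one_le_div (norm_pos_iff.2 h0)]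
        linarith
      by_contra hcon
      push Not at hcon
      have := lsub hcon ha
      linarith
  have pairT : ∀ {a b c : K} (h : IsN W a b c) (hT : W.Nonsingular (a / 4) (-a / 8))
      (hS : W.Nonsingular (b / 4) (-b / 8)), ‖c‖ < 1 → b - a ≠ 0 →
      (Affine.Point.some (b / 4) (-b / 8) hS + Affine.Point.some (a / 4) (-a / 8) hT : W.Point) ∉
        HH W := by
    intro a b c h hT hS hc hba hm
    have h0 : 4 * (b / 4) - a ≠ 0 := by rw [e4]; exact hba
    obtain ⟨X, Y, H, e, hX⟩ := h.addT z2 hS hT h0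
    rw [e] at hm
    refine notin H ?_ hm
    have e5 : 4 * X = c := by
      have e6 : 4 * X - a = c - a := by
        rw [hX, e4, div_eq_iff hba]
        ring
      linear_combination e6
    rw [e5]
    exact hc
  let Ta : W.Point := Affine.Point.some (a / 4) (-a / 8) hTa
  let Tb : W.Point := Affine.Point.some (b / 4) (-b / 8) hTb
  let Tc : W.Point := Affine.Point.some (c / 4) (-c / 8) hTc
  have na : Ta ∉ HH W := notin hTa (by rw [e4]; exact ha)
  have nb : Tb ∉ HH W := notin hTb (by rw [e4]; exact hb)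
  have nc : Tc ∉ HH W := notin hTc (by rw [e4]; exact hc)
  have pba : Tb + Ta ∉ HH W := pairT h hTa hTb hc nba
  have pcb : Tc + Tb ∉ HH W := pairT h.rot hTb hTc ha ncb
  have pac : Ta + Tc ∉ HH W := pairT h.rot.rot hTc hTa hb nac
  have da : Ta + Ta = 0 := h.dbl z2 hTa
  have db : Tb + Tb = 0 := h.rot.dbl z2 hTb
  have dc : Tc + Tc = 0 := h.rot.rot.dbl z2 hTc
  refine index_of (HH W) ![0, Ta, Tb, Tc] ?_ ?_ ?_
  · intro i
    fin_cases i
    · exact add_zero 0
    · exact da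
    · exact db
    · exact dc
  · intro P
    rcases P with _ | ⟨x, y, hn⟩
    · exact ⟨0, (HH W).zero_mem⟩
    by_cases hx : ‖4 * x‖ < 1
    swap
    · push Not at hx
      refine ⟨0, ?_⟩
      show Affine.Point.some x y hn + 0 ∈ HH W
      rw [add_zero]
      exact isin hn hx
    by_cases ca : ‖4 * x - a‖ ≤ 1 / 4
    · exact ⟨1, trans h hTa ha hab hac hn ca⟩
    by_cases cb : ‖4 * x - b‖ ≤ 1 / 4
    · exact ⟨2, trans h.rot hTb hb hbc (by rw [norm_sub_rev]; exact hab) hn cb⟩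
    by_cases cc : ‖4 * x - c‖ ≤ 1 / 4
    · exact ⟨3, trans h.rot.rot hTc hc (by rw [norm_sub_rev]; exact hac)
        (by rw [norm_sub_rev]; exact hbc) hn cc⟩
    exfalso
    push Not at ca cb cc
    have half : ∀ z : K, 1 / 4 < ‖z‖ → ‖z‖ < 1 → ‖z‖ = 1 / 2 := by
      intro z h1 h3
      have hz : z ≠ 0 := by
        rintro rfl
        rw [norm_zero] at h1
        norm_num at h1
      obtain ⟨n, hn⟩ := hd z hz
      rw [hn] at h1 h3 ⊢
      have h4 : n < 0 := by
        by_contra hcon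
        push Not at hcon
        have := one_le_zpow₀ (a := (2 : ℝ)) (by norm_num) hcon
        linarith
      have h5 : -2 < n := by
        by_contra hcon
        push Not at hcon
        have := zpow_le_zpow_right₀ (a := (2 : ℝ)) (by norm_num) hcon
        norm_num at this h1
        linarith
      have h6 : n = -1 := by omega
      rw [h6]
      norm_num
    have ua := half _ ca (lsub hx ha)
    have ub := half _ cb (lsub hx hb)
    have uc := half _ cc (lsub hx hc)
    have e := congrArg norm (h.eqn hn.1)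
    obtain ⟨Y, hYd⟩ : ∃ Y, Y = 4 * (2 * y + x) := ⟨_, rfl⟩
    rw [← hYd, norm_pow, norm_mul, norm_mul, ua, ub, uc] at e
    have hY : Y ≠ 0 := by
      intro h0
      rw [h0, norm_zero] at e
      norm_num at e
    obtain ⟨n, hn'⟩ := hd _ hY
    rw [hn'] at e
    have e2 : (2 : ℝ) ^ (n * 2) = 2 ^ (-3 : ℤ) := by
      rw [zpow_mul]
      norm_num at e ⊢
      exact_mod_cast e
    have e3 := zpow_right_injective₀ (by norm_num : (0 : ℝ) < 2) (by norm_num) e2
    omega
  · intro i j hij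
    fin_cases i <;> fin_cases j
    · rfl
    · exact absurd (show Ta ∈ HH W by simpa using hij) na
    · exact absurd (show Tb ∈ HH W by simpa using hij) nb
    · exact absurd (show Tc ∈ HH W by simpa using hij) nc
    · exact absurd (show Ta ∈ HH W by simpa using hij) na
    · rfl
    · exact absurd (show Tb + Ta ∈ HH W by rw [add_comm]; exact hij) pba
    · exact absurd hij pac
    · exact absurd (show Tb ∈ HH W by simpa using hij) nb
    · exact absurd hij pba
    · rfl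
    · exact absurd (show Tc + Tb ∈ HH W by rw [add_comm]; exact hij) pcb
    · exact absurd (show Tc ∈ HH W by simpa using hij) nc
    · exact absurd (show Ta + Tc ∈ HH W by rw [add_comm]; exact hij) pac
    · exact absurd hij pcb
    · rfl

/-- nonsplit multiplicative reduction -/
theorem IsN.nonsplit (h : IsN W a b c) (h2 : ‖(2 : K)‖ = 1) (ha : ‖a‖ ≤ 1)
    (hb : ‖b‖ ≤ 1) (hc : ‖c‖ ≤ 1) (hab : ‖a - b‖ = 1 / 4) (hac : ‖a - c‖ = 1)
    (hns : ∀ z : K, ¬ ‖z ^ 2 - (a - c)‖ < 1) (i2 : ‖W.a₂‖ ≤ 1) (i4 : ‖W.a₄‖ ≤ 1) :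
    (HH W).index = 2 := by
  have z2 : (2 : K) ≠ 0 := ne_zero_of_norm one_ne_zero h2
  have nab : a - b ≠ 0 := ne_zero_of_norm (by norm_num) hab
  have nac : a - c ≠ 0 := ne_zero_of_norm (by norm_num) hac
  have i1 : ‖W.a₁‖ ≤ 1 := by rw [h.a1, norm_one]
  have i3 : ‖W.a₃‖ ≤ 1 := by rw [h.a3, norm_zero]; exact zero_le_one
  have mem : ∀ P : W.Point, P ∈ HH W ↔ Ns W P := fun P => mem_HH i1 i2 i3 i4
  have hTa := h.nonsing z2 nab nac
  have hab1 : ‖a - b‖ < 1 := by rw [hab]; norm_num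
  have sg : ∀ {x y : K}, W.Nonsingular x y → (Sg W.a₁ W.a₂ W.a₃ W.a₄ x y ↔ ‖4 * x - a‖ < 1) := by
    intro x y hn
    rw [h.sg_iff h2 ha hb hc hn.1]
    constructor
    · rintro ⟨-, ⟨c1, -⟩ | ⟨c1, -⟩ | ⟨c1, c2⟩⟩
      · exact c1
      · exact c1
      · exfalso
        have := ladd (lsub c2 c1) hab1
        have e : 4 * x - c - (4 * x - b) + (a - b) = a - c := by ring
        rw [e, hac] at this
        exact lt_irrefl _ this
    · intro hx
      refine ⟨?_, Or.inl ⟨hx, ?_⟩⟩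
      · have := nadd hx.le ha
        rwa [sub_add_cancel] at this
      · have e : 4 * x - b = (4 * x - a) + (a - b) := by ring
        rw [e]
        exact ladd hx hab1
  let Ta : W.Point := Affine.Point.some (a / 4) (-a / 8) hTa
  have n4 := norm_four h2
  have e4 : ∀ t : K, 4 * (t / 4) = t := by
    intro t
    have : (4 : K) ≠ 0 := ne_zero_of_norm one_ne_zero n4
    field_simp
  have na : Ta ∉ HH W := by
    intro hm
    rw [mem] at hm
    refine hm _ _ hTa rfl ((sg hTa).2 ?_)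
    rw [e4, sub_self, norm_zero]
    exact one_pos
  have da : Ta + Ta = 0 := h.dbl z2 hTa
  refine index_of (HH W) ![0, Ta] ?_ ?_ ?_
  · intro i
    fin_cases i
    · exact add_zero 0
    · exact da
  · intro P
    rcases P with _ | ⟨x, y, hn⟩
    · exact ⟨0, (HH W).zero_mem⟩
    have isin : ∀ {x y : K} (hn : W.Nonsingular x y), 1 ≤ ‖4 * x - a‖ →
        (Affine.Point.some x y hn : W.Point) ∈ HH W := by
      intro x y hn hx
      rw [mem]
      intro x' y' hn' he hs
      obtain ⟨e1, e2⟩ := Affine.Point.some.inj he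
      subst e1
      subst e2
      exact absurd ((sg hn).1 hs) (not_lt.2 hx)
    by_cases hx : ‖4 * x - a‖ < 1
    swap
    · push Not at hx
      refine ⟨0, ?_⟩
      show Affine.Point.some x y hn + 0 ∈ HH W
      rw [add_zero]
      exact isin hn hx
    refine ⟨1, ?_⟩
    show Affine.Point.some x y hn + Affine.Point.some (a / 4) (-a / 8) hTa ∈ HH W
    by_cases h0 : 4 * x - a = 0
    · rw [h.eq_T z2 hn hTa h0, h.dbl z2 hTa]
      exact zero_mem _
    obtain ⟨X, Y, H, e, hX⟩ := h.addT z2 hn hTa h0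
    rw [e]
    apply isin
    have hle : ‖4 * x - a‖ ≤ 1 / 4 := by
      by_contra hcon
      push Not at hcon
      set u := 4 * x - a with hu
      set Y := 4 * (2 * y + x) with hYd
      have hE := h.eqn hn.1
      rw [← hu, ← hYd] at hE
      apply hns (Y / u)
      have e5 : (Y / u) ^ 2 - (a - c) = (a - b) / u * ((a - c) + u) + u := by
        rw [div_pow, hE]
        have e6 : 4 * x - b = u + (a - b) := by rw [hu]; ring
        have e7 : 4 * x - c = u + (a - c) := by rw [hu]; ring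
        rw [e6, e7]
        field_simp
        ring
      rw [e5]
      refine ladd (lmul' ?_ (nadd hac.le hx.le)) hx
      rw [norm_div, hab, div_lt_one (norm_pos_iff.2 h0)]
      exact hcon
    rw [hX, norm_div, norm_mul, hab, hac, one_le_div (norm_pos_iff.2 h0)]
    linarith
  · intro i j hij
    fin_cases i <;> fin_cases j
    · rfl
    · exact absurd (show Ta ∈ HH W by simpa using hij) na
    · exact absurd (show Ta ∈ HH W by simpa using hij) na
    · rfl

end norm

end Pool.Agent.N106.QB
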