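import Pool.Agent.N106.QB.TL
import Pool.Agent.N49.QB.Base
import Pool.Agent.R475.LP.Split

/-!
# The product of the Tamagawa numbers (QB-TAM)
-/

set_option autoImplicit false
set_option linter.unusedVariables false

open NumberField IsDedekindDomain WeierstrassCurve WithZero

namespace Pool.Agent.N106.QB

open scoped Classical

open Pool.Agent.Y641.XF (nf nf_ultra nf_le_one nf_lt_one nf_eq_one nf_half nf_dsc nf_eq E0_eq HH)
open Pool.Agent.N875.X15 (WN)
open Pool.Agent.Y682.XF (base c Tam E0)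
open Pool.Agent.N856.QB
open Pool.Agent.H921R2.TatePole (below deg nm nm_eq)
open Pool.Agent.N49.QB (VV vv_int vv_le_one vv_one vv_p vv_sqf not_mem_sq not_mem_of_not_dvd
  mem_of_dvd res_int nonres exists_int finr not_rat)

/-! ### The local statements for valuations -/

theorem isN_WN (k : Type) [Field k] {m : ℤ} (hm : m % 4 = 1) :
    IsN (base (WN m) k).toAffine (0 : k) (-9 * m) (16 * m) := by
  obtain ⟨j, rfl⟩ : ∃ j, m = 4 * j + 1 := ⟨m / 4, by omega⟩
  rw [Pool.Agent.N875.X15.WN_k]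
  refine ⟨?_, ?_, ?_, ?_, ?_⟩
  · show ((1 : ℤ) : k) = 1
    norm_num
  · show 4 * (((-(7 * j + 2) : ℤ)) : k) = _
    push_cast
    ring
  · show ((0 : ℤ) : k) = 0
    norm_num
  · show 16 * (((-(9 * (4 * j + 1) ^ 2) : ℤ)) : k) = _
    push_cast
    ring
  · show 64 * ((0 : ℤ) : k) = _
    push_cast
    ring

section loc

variable {k : Type} [Field k] (v : Valuation k (WithZero (Multiplicative ℤ)))
  (hv : ∀ n : ℤ, v n ≤ 1)

theorem nf_quarter {x : k} : @norm k (nf v).toNorm x = 1 / 4 ↔ v x = exp (-2 : ℤ) := by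
  have := nf_eq v x (-2)
  rw [← this]
  norm_num

include hv

theorem l_good {m : ℤ} (hm : m % 4 = 1) (h3 : v (3 : k) = 1) (h5 : v (5 : k) = 1)
    (hmv : v (m : k) = 1) : E0 (WN m) k v = ⊤ := by
  let _ := nf v
  have := nf_ultra v
  have hi : ∀ n : ℤ, ‖(n : k)‖ ≤ 1 := fun n => (nf_le_one v _).2 (hv n)
  rw [E0_eq v hv]
  have n3 : ‖(3 : k)‖ = 1 := (nf_eq_one v _).2 h3
  have n5 : ‖(5 : k)‖ = 1 := (nf_eq_one v _).2 h5
  have nm : ‖(m : k)‖ = 1 := (nf_eq_one v _).2 hmv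
  have n9 : ‖(9 : k)‖ = 1 := by
    have : (9 : k) = 3 ^ 2 := by norm_num
    rw [this, norm_pow, n3, one_pow]
  have n25 : ‖(25 : k)‖ = 1 := by
    have : (25 : k) = 5 ^ 2 := by norm_num
    rw [this, norm_pow, n5, one_pow]
  have i2 : ‖(2 : k)‖ ≤ 1 := by exact_mod_cast hi 2
  have hN := isN_WN k hm
  rcases lt_or_eq_of_le i2 with h2 | h2
  · refine good_two hN.a1 hN.a3 ?_ (hi _) ?_ h2
    · show ((0 : ℤ) : k) = 0
      norm_num
    · show ‖((-(9 * m ^ 2) : ℤ) : k)‖ = 1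
      push_cast
      rw [norm_neg, norm_mul, n9, norm_pow, nm, one_pow, one_mul]
  · have n16 : ‖(16 : k)‖ = 1 := by
      have : (16 : k) = 2 ^ 4 := by norm_num
      rw [this, norm_pow, h2, one_pow]
    refine hN.good h2 (by rw [norm_zero]; exact zero_le_one) ?_ ?_ ?_ ?_ ?_
    · rw [norm_mul, norm_neg, n9, nm, one_mul]
    · rw [norm_mul, n16, nm, one_mul]
    · rw [zero_sub, norm_neg, norm_mul, norm_neg, n9, nm, one_mul]
    · rw [zero_sub, norm_neg, norm_mul, n16, nm, one_mul]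
    · have e : -9 * (m : k) - 16 * m = -(25 * m) := by ring
      rw [e, norm_neg, norm_mul, n25, nm, one_mul]

theorem l_ram {m : ℤ} (hm : m % 4 = 1) (h2 : v (2 : k) = 1) (h3 : v (3 : k) = 1)
    (h5 : v (5 : k) = 1) (hmv : v (m : k) = exp (-1 : ℤ)) : (E0 (WN m) k v).index = 4 := by
  let _ := nf v
  have := nf_ultra v
  have hi : ∀ n : ℤ, ‖(n : k)‖ ≤ 1 := fun n => (nf_le_one v _).2 (hv n)
  rw [E0_eq v hv]
  have n2 : ‖(2 : k)‖ = 1 := (nf_eq_one v _).2 h2
  have n3 : ‖(3 : k)‖ = 1 := (nf_eq_one v _).2 h3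
  have n5 : ‖(5 : k)‖ = 1 := (nf_eq_one v _).2 h5
  have nm : ‖(m : k)‖ = 1 / 2 := (nf_half v _).2 hmv
  have n9 : ‖(9 : k)‖ = 1 := by
    have : (9 : k) = 3 ^ 2 := by norm_num
    rw [this, norm_pow, n3, one_pow]
  have n25 : ‖(25 : k)‖ = 1 := by
    have : (25 : k) = 5 ^ 2 := by norm_num
    rw [this, norm_pow, n5, one_pow]
  have n16 : ‖(16 : k)‖ = 1 := by
    have : (16 : k) = 2 ^ 4 := by norm_num
    rw [this, norm_pow, n2, one_pow]
  refine (isN_WN k hm).ram (nf_dsc v) n2 ?_ ?_ ?_ ?_ ?_ ?_ (hi _) (hi _)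
  · rw [norm_zero]; exact one_pos
  · rw [norm_mul, norm_neg, n9, nm]; norm_num
  · rw [norm_mul, n16, nm]; norm_num
  · rw [zero_sub, norm_neg, norm_mul, norm_neg, n9, nm, one_mul]
  · rw [zero_sub, norm_neg, norm_mul, n16, nm, one_mul]
  · have e : -9 * (m : k) - 16 * m = -(25 * m) := by ring
    rw [e, norm_neg, norm_mul, n25, nm, one_mul]

theorem l_three {m : ℤ} (hm : m % 4 = 1) (h2 : v (2 : k) = 1) (h3 : v (3 : k) = exp (-1 : ℤ))
    (hmv : v (m : k) = 1) (hns : ∀ s : k, ¬ v (s ^ 2 - ((-16 * m : ℤ) : k)) < 1) :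
    (E0 (WN m) k v).index = 2 := by
  let _ := nf v
  have := nf_ultra v
  have hi : ∀ n : ℤ, ‖(n : k)‖ ≤ 1 := fun n => (nf_le_one v _).2 (hv n)
  rw [E0_eq v hv]
  have n2 : ‖(2 : k)‖ = 1 := (nf_eq_one v _).2 h2
  have n3 : ‖(3 : k)‖ = 1 / 2 := (nf_half v _).2 h3
  have nm : ‖(m : k)‖ = 1 := (nf_eq_one v _).2 hmv
  have n9 : ‖(9 : k)‖ = 1 / 4 := by
    have : (9 : k) = 3 ^ 2 := by norm_num
    rw [this, norm_pow, n3]
    norm_num
  have n16 : ‖(16 : k)‖ = 1 := by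
    have : (16 : k) = 2 ^ 4 := by norm_num
    rw [this, norm_pow, n2, one_pow]
  refine (isN_WN k hm).nonsplit n2 ?_ ?_ ?_ ?_ ?_ ?_ (hi _) (hi _)
  · rw [norm_zero]; exact zero_le_one
  · rw [norm_mul, norm_neg, n9, nm]; norm_num
  · rw [norm_mul, n16, nm, one_mul]
  · rw [zero_sub, norm_neg, norm_mul, norm_neg, n9, nm, mul_one]
  · rw [zero_sub, norm_neg, norm_mul, n16, nm, one_mul]
  · intro z hz
    rw [nf_lt_one] at hz
    apply hns z
    have e : (((-16 * m : ℤ)) : k) = 0 - 16 * (m : k) := by push_cast; ring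
    rw [e]
    exact hz

theorem l_five {m : ℤ} (hm : m % 4 = 1) (h2 : v (2 : k) = 1) (h3 : v (3 : k) = 1)
    (h5 : v (5 : k) = exp (-1 : ℤ))
    (hmv : v (m : k) = 1) (hns : ∀ s : k, ¬ v (s ^ 2 - ((-9 * m : ℤ) : k)) < 1) :
    (E0 (WN m) k v).index = 2 := by
  let _ := nf v
  have := nf_ultra v
  have hi : ∀ n : ℤ, ‖(n : k)‖ ≤ 1 := fun n => (nf_le_one v _).2 (hv n)
  rw [E0_eq v hv]
  have n2 : ‖(2 : k)‖ = 1 := (nf_eq_one v _).2 h2
  have n3 : ‖(3 : k)‖ = 1 := (nf_eq_one v _).2 h3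
  have n5 : ‖(5 : k)‖ = 1 / 2 := (nf_half v _).2 h5
  have nm : ‖(m : k)‖ = 1 := (nf_eq_one v _).2 hmv
  have n9 : ‖(9 : k)‖ = 1 := by
    have : (9 : k) = 3 ^ 2 := by norm_num
    rw [this, norm_pow, n3, one_pow]
  have n25 : ‖(25 : k)‖ = 1 / 4 := by
    have : (25 : k) = 5 ^ 2 := by norm_num
    rw [this, norm_pow, n5]
    norm_num
  have n16 : ‖(16 : k)‖ = 1 := by
    have : (16 : k) = 2 ^ 4 := by norm_num
    rw [this, norm_pow, n2, one_pow]
  refine (isN_WN k hm).rot.nonsplit n2 ?_ ?_ ?_ ?_ ?_ ?_ (hi _) (hi _)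
  · rw [norm_mul, norm_neg, n9, nm, one_mul]
  · rw [norm_mul, n16, nm, one_mul]
  · rw [norm_zero]; exact zero_le_one
  · have e : -9 * (m : k) - 16 * m = -(25 * m) := by ring
    rw [e, norm_neg, norm_mul, n25, nm, mul_one]
  · rw [sub_zero, norm_mul, norm_neg, n9, nm, one_mul]
  · intro z hz
    rw [nf_lt_one] at hz
    apply hns z
    have e : (((-9 * m : ℤ)) : k) = -9 * (m : k) - 0 := by push_cast; ring
    rw [e]
    exact hz

end loc

/-! ### The places -/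

section places

variable {K : Type} [Field K] [NumberField K] {d : ℕ} {r : K}

theorem fin2 (h : Qf d K r) (hd : Squarefree d) (hd1 : d ≠ 1) : Module.finrank ℚ K = 2 := by
  have hDsq : Squarefree (d : ℤ) := Int.squarefree_natCast.2 hd
  have hD1 : (d : ℤ) ≠ 1 := by exact_mod_cast hd1
  have hrd : r ^ 2 = ((d : ℤ) : K) := by rw [h.hr]; push_cast; rfl
  exact finr (fun q => not_rat hDsq hD1 hrd q) h.hK

theorem exists_above (p : Nat.Primes) : ∃ v : HeightOneSpectrum (𝓞 K), below v = p := by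
  have hI : Ideal.span {(((p : ℕ) : 𝓞 K))} ≠ ⊤ := by
    intro h0
    have h1 : Ideal.absNorm (Ideal.span {(((p : ℕ) : 𝓞 K))}) = (p : ℕ) ^ Module.finrank ℚ K := by
      rw [Ideal.absNorm_span_natCast, RingOfIntegers.rank]
    rw [h0, Ideal.absNorm_top] at h1
    have h2 : 0 < Module.finrank ℚ K := Module.finrank_pos
    have h3 := Nat.one_lt_pow h2.ne' p.2.one_lt
    omega
  obtain ⟨v, hv⟩ := Pool.Agent.R475.LP.exists_place p _ hI (Ideal.mem_span_singleton_self _)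
  exact ⟨v, Pool.Agent.R475.LP.below_eq p v (hv (Ideal.mem_span_singleton_self _))⟩

theorem mem_below (v : HeightOneSpectrum (𝓞 K)) {p : Nat.Primes} (h : below v = p) :
    ((p : ℕ) : 𝓞 K) ∈ v.asIdeal := by
  rw [← h]
  exact (nm_eq v).2.2

/-- split primes -/
theorem split_two (h : Qf d K r) (hd : Squarefree d) (hd1 : d ≠ 1) (p : Nat.Primes)
    (hp2 : (p : ℕ) ≠ 2) (hpd : ¬ (p : ℕ) ∣ d) (c : ℤ) (hc : ((p : ℕ) : ℤ) ∣ c ^ 2 - d) :
    ∃ v w : HeightOneSpectrum (𝓞 K), v ≠ w ∧ ∀ u, below u = p ↔ u = v ∨ u = w := by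
  have hf := fin2 h hd hd1
  obtain ⟨v, hv⟩ := exists_above (K := K) p
  have hvp := mem_below v hv
  have hp2d : ¬ (p : ℕ) ∣ 2 * d := by
    rw [p.2.dvd_mul, not_or]
    exact ⟨fun h1 => hp2 ((Nat.prime_dvd_prime_iff_eq p.2 Nat.prime_two).1 h1), hpd⟩
  have hsq := not_mem_sq h p.2 hp2d v hvp
  -- the degree is one
  have hdeg : deg v = 1 := by
    rcases (Pool.Agent.R475.LP.deg_le hf v).1 with h1 | h1
    · exact h1
    exfalso
    have h2 := (nm_eq v).1
    rw [h1, hv] at h2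
    unfold nm at h2
    have hcard : Nat.card (𝓞 K ⧸ v.asIdeal) = (p : ℕ) ^ 2 := by
      rw [← h2]
      exact (Submodule.cardQuot_apply v.asIdeal).symm
    have hle : Nat.card (𝓞 K ⧸ v.asIdeal) ≤ Nat.card (Fin (p : ℕ)) := by
      apply Nat.card_le_card_of_surjective
        (fun i : Fin (p : ℕ) => Ideal.Quotient.mk v.asIdeal ((i : ℕ) : 𝓞 K))
      intro y
      obtain ⟨x, rfl⟩ := Ideal.Quotient.mk_surjective y
      obtain ⟨k, hk⟩ := res_int h hd hd1 p.2 hp2 v hvp c hc x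
      have hpos : (0 : ℤ) < ((p : ℕ) : ℤ) := by exact_mod_cast p.2.pos
      have h3 := Int.emod_nonneg k hpos.ne'
      have h4 := Int.emod_lt_of_pos k hpos
      refine ⟨⟨(k % ((p : ℕ) : ℤ)).toNat, by omega⟩, ?_⟩
      simp only
      rw [Ideal.Quotient.eq]
      have h5 : (((k % ((p : ℕ) : ℤ)).toNat : ℕ) : 𝓞 K) = ((k % ((p : ℕ) : ℤ) : ℤ) : 𝓞 K) := by
        have h6 : (((k % ((p : ℕ) : ℤ)).toNat : ℕ) : ℤ) = k % ((p : ℕ) : ℤ) := Int.toNat_of_nonneg h3
        rw [← Int.cast_natCast, h6]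
      rw [h5]
      have h7 : ((k % ((p : ℕ) : ℤ) : ℤ) : 𝓞 K) - x = -(x - (k : 𝓞 K)) +
          (((k % ((p : ℕ) : ℤ) - k : ℤ)) : 𝓞 K) := by
        push_cast
        ring
      rw [h7]
      refine add_mem (neg_mem hk) (mem_of_dvd v hvp _ ?_)
      exact Int.dvd_sub_self_of_emod_eq rfl
    rw [hcard, Nat.card_fin] at hle
    have := p.2.two_le
    nlinarith
  -- the second place
  have hdvd : v.asIdeal ∣ Ideal.span {(((p : ℕ) : 𝓞 K))} := by
    rw [Ideal.dvd_iff_le, Ideal.span_singleton_le_iff_mem]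
    exact hvp
  obtain ⟨J, hJ⟩ := hdvd
  have hJn : Ideal.absNorm J = (p : ℕ) := by
    have h5 := congrArg Ideal.absNorm hJ
    have h2 := (nm_eq v).1
    rw [hdeg, hv, pow_one] at h2
    unfold nm at h2
    rw [Pool.Agent.R475.LP.norm_p hf, map_mul, h2, pow_two] at h5
    exact (Nat.eq_of_mul_eq_mul_left p.2.pos h5).symm
  have hJt : J ≠ ⊤ := by
    intro h0
    rw [h0, Ideal.absNorm_top] at hJn
    exact p.2.one_lt.ne hJn
  have hpJ : ((p : ℕ) : 𝓞 K) ∈ J := by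
    have h1 : Ideal.span {(((p : ℕ) : 𝓞 K))} ≤ J := by
      rw [hJ]
      exact Ideal.mul_le_right
    exact h1 (Ideal.mem_span_singleton_self _)
  obtain ⟨w, hw⟩ := Pool.Agent.R475.LP.exists_place p J hJt hpJ
  have hwp : below w = p := Pool.Agent.R475.LP.below_eq p w (hw hpJ)
  have hne : v ≠ w := by
    rintro rfl
    apply hsq
    have h1 : v.asIdeal ∣ J := Ideal.dvd_iff_le.2 hw
    have h2 : v.asIdeal ^ 2 ∣ Ideal.span {(((p : ℕ) : 𝓞 K))} := by
      rw [hJ, pow_two]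
      exact mul_dvd_mul_left _ h1
    rwa [Ideal.dvd_iff_le, Ideal.span_singleton_le_iff_mem] at h2
  obtain ⟨-, -, -, hall⟩ := Pool.Agent.R475.LP.two_places hf v w hne (hv.trans hwp.symm)
  refine ⟨v, w, hne, fun u => ⟨fun hu => hall u (hu.trans hv.symm), ?_⟩⟩
  rintro (rfl | rfl)
  · exact hv
  · exact hwp

/-- inert primes -/
theorem inert_one (h : Qf d K r) (hd : Squarefree d) (hd1 : d ≠ 1) (p : Nat.Primes)
    (hc : ∀ c : ℤ, ¬ ((p : ℕ) : ℤ) ∣ c ^ 2 - d) :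
    ∃ v : HeightOneSpectrum (𝓞 K), ∀ u, below u = p ↔ u = v := by
  have hf := fin2 h hd hd1
  obtain ⟨v, hv⟩ := exists_above (K := K) p
  obtain ⟨δ, hδ, hδ2⟩ := exists_int h
  have hdeg : deg v ≠ 1 := by
    intro h1
    obtain ⟨c, hcv⟩ := Pool.Agent.R475.LP.deg_one_int v h1 δ
    apply hc c
    have h2 : (((c ^ 2 - d : ℤ)) : 𝓞 K) ∈ v.asIdeal := by
      have e : (((c ^ 2 - d : ℤ)) : 𝓞 K) = -((δ - (c : 𝓞 K)) * (δ + (c : 𝓞 K))) := by
        push_cast
        rw [← hδ2]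
        ring
      rw [e]
      exact neg_mem (Ideal.mul_mem_right _ _ hcv)
    have h3 := Pool.Agent.R475.LP.int_mem v _ h2
    rwa [hv] at h3
  refine ⟨v, fun u => ⟨fun hu => ?_, fun hu => hu ▸ hv⟩⟩
  by_contra hne
  exact hdeg (Pool.Agent.R475.LP.two_places hf v u (Ne.symm hne) (hv.trans hu.symm)).1

end places

/-! ### The Tamagawa numbers -/

section tam

variable {K : Type} [Field K] [NumberField K] {r : K} {n d : ℕ}

theorem neg_mod4 (hy : Hy n d) : (-(n : ℤ)) % 4 = 1 := by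
  have := hy.hn.2
  omega

theorem n_mod (hy : Hy n d) : n % 2 = 1 ∧ n % 3 = 2 ∧ (n % 5 = 2 ∨ n % 5 = 3) := by
  have := hy.hn.2
  omega

theorem not_dvd_lit {p q : ℕ} (hp : p.Prime) (hq : q.Prime) (h : p ≠ q) :
    ¬ (p : ℤ) ∣ ((q : ℕ) : ℤ) := by
  intro h1
  have h2 : p ∣ q := by exact_mod_cast h1
  exact h ((Nat.prime_dvd_prime_iff_eq hp hq).1 h2)

theorem vv_lit (v : HeightOneSpectrum (𝓞 K)) {p q : ℕ} (hp : p.Prime) (hq : q.Prime) (h : p ≠ q)
    (hv : ((p : ℕ) : 𝓞 K) ∈ v.asIdeal) : VV v ((q : ℕ) : v.adicCompletion K) = 1 := by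
  have := vv_one hp v hv ((q : ℕ) : ℤ) (not_dvd_lit hp hq h)
  rwa [Int.cast_natCast] at this

theorem c_good (hy : Hy n d) (v : HeightOneSpectrum (𝓞 K)) (hv : ¬ ((below v : ℕ) ∣ 15 * n)) :
    c (WN (-(n : ℤ))) v = 1 := by
  have hvp := (nm_eq v).2.2
  have hp := (below v).2
  have hm : ¬ ((below v : ℕ) : ℤ) ∣ (-(n : ℤ)) := by
    rw [Int.dvd_neg]
    intro h1
    exact hv (Dvd.dvd.mul_left (by exact_mod_cast h1) 15)
  have h3 : (below v : ℕ) ≠ 3 := by
    intro h0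
    apply hv
    rw [h0]
    exact ⟨5 * n, by ring⟩
  have h5 : (below v : ℕ) ≠ 5 := by
    intro h0
    apply hv
    rw [h0]
    exact ⟨3 * n, by ring⟩
  have e3 : VV v (3 : v.adicCompletion K) = 1 := by
    exact_mod_cast vv_lit v hp (by norm_num : (3 : ℕ).Prime) h3 hvp
  have e5 : VV v (5 : v.adicCompletion K) = 1 := by
    exact_mod_cast vv_lit v hp (by norm_num : (5 : ℕ).Prime) h5 hvp
  show (E0 (WN (-(n : ℤ))) (v.adicCompletion K) Valued.v).index = 1
  rw [l_good (VV v) (vv_le_one v) (neg_mod4 hy) e3 e5 (vv_one hp v hvp _ hm)]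
  exact AddSubgroup.index_top

theorem c_three (hy : Hy n d) (hq : Qf d K r) (v : HeightOneSpectrum (𝓞 K))
    (hv : (below v : ℕ) = 3) : c (WN (-(n : ℤ))) v = 2 := by
  have hvp := (nm_eq v).2.2
  rw [hv] at hvp
  have p3 : (3 : ℕ).Prime := by norm_num
  obtain ⟨n2, n3, n5⟩ := n_mod hy
  have hd := hy.hd
  have d3 : d % 3 = 1 := by have := hd.2.1; omega
  have d2 : d % 2 = 1 := by have := hd.2.1; omega
  have hm : ¬ ((3 : ℕ) : ℤ) ∣ (-(n : ℤ)) := by omega
  have e2 : VV v (2 : v.adicCompletion K) = 1 := by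
    exact_mod_cast vv_lit v p3 Nat.prime_two (by norm_num) hvp
  have e3 : VV v (3 : v.adicCompletion K) = exp (-1 : ℤ) := by
    have := vv_p hq p3 (by omega) v hvp
    exact_mod_cast this
  show (E0 (WN (-(n : ℤ))) (v.adicCompletion K) Valued.v).index = 2
  refine l_three (VV v) (vv_le_one v) (neg_mod4 hy) e2 e3 (vv_one p3 v hvp _ hm) ?_
  intro s
  refine nonres hq hd.1 (by have := hy.h1; omega) p3 (by norm_num) v hvp 1 (by
    push_cast
    omega) (-16 * (-(n : ℤ))) ?_ s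
  intro k hk
  have h1 : k % 3 = 0 ∨ k % 3 = 1 ∨ k % 3 = 2 := by omega
  have h2 : (k ^ 2 - -16 * -(n : ℤ)) % 3 = 0 := Int.emod_eq_zero_of_dvd hk
  have h3 : (n : ℤ) % 3 = 2 := by omega
  have h4 : (k ^ 2 - -16 * -(n : ℤ)) % 3 = ((k % 3) ^ 2 - 16 * ((n : ℤ) % 3)) % 3 := by
    rw [neg_mul_neg]
    simp [pow_two, Int.sub_emod, Int.mul_emod]
  rw [h4, h3] at h2
  rcases h1 with h | h | h <;> rw [h] at h2 <;> norm_num at h2

theorem c_five (hy : Hy n d) (hq : Qf d K r) (v : HeightOneSpectrum (𝓞 K))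
    (hv : (below v : ℕ) = 5) : c (WN (-(n : ℤ))) v = 2 := by
  have hvp := (nm_eq v).2.2
  rw [hv] at hvp
  have p5 : (5 : ℕ).Prime := by norm_num
  obtain ⟨n2, n3, n5⟩ := n_mod hy
  have hd := hy.hd
  have d5 := hd.2.2
  have d2 : d % 2 = 1 := by have := hd.2.1; omega
  have hm : ¬ ((5 : ℕ) : ℤ) ∣ (-(n : ℤ)) := by omega
  have e2 : VV v (2 : v.adicCompletion K) = 1 := by
    exact_mod_cast vv_lit v p5 Nat.prime_two (by norm_num) hvp
  have e3 : VV v (3 : v.adicCompletion K) = 1 := by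
    exact_mod_cast vv_lit v p5 (by norm_num : (3 : ℕ).Prime) (by norm_num) hvp
  have e5 : VV v (5 : v.adicCompletion K) = exp (-1 : ℤ) := by
    have := vv_p hq p5 (by omega) v hvp
    exact_mod_cast this
  obtain ⟨c, hc⟩ : ∃ c : ℤ, ((5 : ℕ) : ℤ) ∣ c ^ 2 - d := by
    rcases d5 with h | h
    · exact ⟨1, by push_cast; omega⟩
    · exact ⟨2, by push_cast; omega⟩
  show (E0 (WN (-(n : ℤ))) (v.adicCompletion K) Valued.v).index = 2
  refine l_five (VV v) (vv_le_one v) (neg_mod4 hy) e2 e3 e5 (vv_one p5 v hvp _ hm) ?_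
  intro s
  refine nonres hq hd.1 (by have := hy.h1; omega) p5 (by norm_num) v hvp c hc
    (-9 * (-(n : ℤ))) ?_ s
  intro k hk
  have h1 : k % 5 = 0 ∨ k % 5 = 1 ∨ k % 5 = 2 ∨ k % 5 = 3 ∨ k % 5 = 4 := by omega
  have h2 : (k ^ 2 - -9 * -(n : ℤ)) % 5 = 0 := Int.emod_eq_zero_of_dvd hk
  have h3 : (n : ℤ) % 5 = 2 ∨ (n : ℤ) % 5 = 3 := by omega
  have h4 : (k ^ 2 - -9 * -(n : ℤ)) % 5 = ((k % 5) ^ 2 - 9 * ((n : ℤ) % 5)) % 5 := by
    rw [neg_mul_neg]
    simp [pow_two, Int.sub_emod, Int.mul_emod]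
  rw [h4] at h2
  rcases h3 with h3 | h3 <;> rcases h1 with h | h | h | h | h <;> rw [h, h3] at h2 <;>
    norm_num at h2

theorem prime_dvd_n (hy : Hy n d) {p : ℕ} (hp : p.Prime) (h : p ∣ n) :
    p ≠ 2 ∧ p ≠ 3 ∧ p ≠ 5 ∧ ¬ p ∣ d := by
  obtain ⟨n2, n3, n5⟩ := n_mod hy
  refine ⟨?_, ?_, ?_, ?_⟩
  · rintro rfl; omega
  · rintro rfl; omega
  · rintro rfl; omega
  · intro hd
    have := Nat.dvd_gcd h hd
    rw [hy.hc] at this
    exact hp.one_lt.ne' (Nat.dvd_one.1 this)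

theorem c_ram (hy : Hy n d) (hq : Qf d K r) (v : HeightOneSpectrum (𝓞 K))
    (hv : (below v : ℕ) ∣ n) : c (WN (-(n : ℤ))) v = 4 := by
  have hvp := (nm_eq v).2.2
  have hp := (below v).2
  obtain ⟨h2, h3, h5, hpd⟩ := prime_dvd_n hy hp hv
  have e2 : VV v (2 : v.adicCompletion K) = 1 := by
    exact_mod_cast vv_lit v hp Nat.prime_two h2 hvp
  have e3 : VV v (3 : v.adicCompletion K) = 1 := by
    exact_mod_cast vv_lit v hp (by norm_num : (3 : ℕ).Prime) h3 hvp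
  have e5 : VV v (5 : v.adicCompletion K) = 1 := by
    exact_mod_cast vv_lit v hp (by norm_num : (5 : ℕ).Prime) h5 hvp
  have hp2d : ¬ (below v : ℕ) ∣ 2 * d := by
    rw [hp.dvd_mul, not_or]
    exact ⟨fun h1 => h2 ((Nat.prime_dvd_prime_iff_eq hp Nat.prime_two).1 h1), hpd⟩
  have hsq : Squarefree (-(n : ℤ)) := by
    rw [← Int.squarefree_natAbs, Int.natAbs_neg, Int.natAbs_natCast]
    exact hy.hn.1
  have em := vv_sqf hq hp hp2d v hvp (-(n : ℤ)) hsq (by
    rw [Int.dvd_neg]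
    exact_mod_cast hv)
  show (E0 (WN (-(n : ℤ))) (v.adicCompletion K) Valued.v).index = 4
  exact l_ram (VV v) (vv_le_one v) (neg_mod4 hy) e2 e3 e5 em

/-- the contribution of the places above `p` -/
noncomputable def F (d p : ℕ) : ℕ := if p = 3 ∨ p = 5 then 4 else if jacobiSym d p = 1 then 16 else 4

theorem exists_sqrt {p : ℕ} (hp : p.Prime) (hpd : ¬ p ∣ d) (h : jacobiSym d p = 1) :
    ∃ c : ℤ, (p : ℤ) ∣ c ^ 2 - d := by
  have : Fact p.Prime := ⟨hp⟩
  rw [← jacobiSym.legendreSym.to_jacobiSym] at h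
  have h0 : (((d : ℕ) : ℤ) : ZMod p) ≠ 0 := by
    rw [Int.cast_natCast, Ne, ZMod.natCast_eq_zero_iff]
    exact hpd
  rw [legendreSym.eq_one_iff p h0] at h
  obtain ⟨z, hz⟩ := h
  obtain ⟨c, rfl⟩ := ZMod.intCast_surjective z
  refine ⟨c, ?_⟩
  rw [← ZMod.intCast_zmod_eq_zero_iff_dvd]
  push_cast at hz ⊢
  rw [hz]
  ring

theorem no_sqrt {p : ℕ} (hp : p.Prime) (h : jacobiSym d p = -1) (c : ℤ) :
    ¬ (p : ℤ) ∣ c ^ 2 - d := by
  have : Fact p.Prime := ⟨hp⟩
  rw [← jacobiSym.legendreSym.to_jacobiSym, legendreSym.eq_neg_one_iff] at h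
  intro h1
  apply h
  rw [← ZMod.intCast_zmod_eq_zero_iff_dvd] at h1
  push_cast at h1 ⊢
  exact ⟨(c : ZMod p), by linear_combination (-1 : ZMod p) * h1⟩

theorem jac_cases {p : ℕ} (hp : p.Prime) (hpd : ¬ p ∣ d) :
    jacobiSym d p = 1 ∨ jacobiSym d p = -1 := by
  have : Fact p.Prime := ⟨hp⟩
  rw [← jacobiSym.legendreSym.to_jacobiSym]
  apply legendreSym.eq_one_or_neg_one
  rw [Int.cast_natCast, Ne, ZMod.natCast_eq_zero_iff]
  exact hpd

/-- **QB-TAM** -/
theorem t_TAM : S_TAM := by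
  intro n d hy K _ _ r hq
  have hd := hy.hd
  have hd1 : d ≠ 1 := by have := hy.h1; omega
  have hn0 : n ≠ 0 := hy.hn.1.ne_zero
  obtain ⟨n2, n3, n5⟩ := n_mod hy
  have hfin : {v : HeightOneSpectrum (𝓞 K) | (below v : ℕ) ∣ 15 * n}.Finite := by
    have h1 : Ideal.span {(((15 * n : ℕ)) : 𝓞 K)} ≠ 0 := by
      rw [Ne, Ideal.zero_eq_bot, Ideal.span_singleton_eq_bot]
      exact_mod_cast Nat.mul_ne_zero (by norm_num) hn0
    refine (Ideal.finite_factors h1).subset fun v hv => ?_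
    rw [Set.mem_ofPred_eq] at hv ⊢
    rw [Ideal.dvd_span_singleton]
    obtain ⟨t, ht⟩ := hv
    rw [ht]
    push_cast
    exact Ideal.mul_mem_right _ _ (nm_eq v).2.2
  have hsub : {v : HeightOneSpectrum (𝓞 K) | c (WN (-(n : ℤ))) v ≠ 1} ⊆ (hfin.toFinset : Set _) := by
    intro v hv
    rw [Set.Finite.coe_toFinset]
    by_contra hcon
    exact hv (c_good hy v hcon)
  refine ⟨(Finset.finite_toSet _).subset hsub, ?_⟩
  unfold Tam
  rw [finprod_eq_prod_of_mulSupport_subset _ hsub]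
  have hmap : ∀ v ∈ hfin.toFinset, (below v : ℕ) ∈ (15 * n).primeFactors := by
    intro v hv
    rw [Set.Finite.mem_toFinset, Set.mem_ofPred_eq] at hv
    rw [Nat.mem_primeFactors]
    exact ⟨(below v).2, hv, Nat.mul_ne_zero (by norm_num) hn0⟩
  rw [← Finset.prod_fiberwise_of_maps_to hmap]
  have hinner : ∀ p ∈ (15 * n).primeFactors,
      ∏ v ∈ hfin.toFinset with (below v : ℕ) = p, c (WN (-(n : ℤ))) v = F d p := by
    intro p hp
    rw [Nat.mem_primeFactors] at hp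
    obtain ⟨hpp, hpn, -⟩ := hp
    have hmem : ∀ v : HeightOneSpectrum (𝓞 K),
        v ∈ hfin.toFinset.filter (fun v => (below v : ℕ) = p) ↔ below v = ⟨p, hpp⟩ := by
      intro v
      rw [Finset.mem_filter, Set.Finite.mem_toFinset, Set.mem_ofPred_eq]
      constructor
      · rintro ⟨-, h⟩
        exact Subtype.ext h
      · intro h
        have h' : (below v : ℕ) = p := congrArg Subtype.val h
        exact ⟨by rw [h']; exact hpn, h'⟩
    have two : ∀ (t : ℕ), p ≠ 2 → ¬ p ∣ d → (∃ c : ℤ, (p : ℤ) ∣ c ^ 2 - d) →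
        (∀ v : HeightOneSpectrum (𝓞 K), (below v : ℕ) = p → c (WN (-(n : ℤ))) v = t) →
        ∏ v ∈ hfin.toFinset with (below v : ℕ) = p, c (WN (-(n : ℤ))) v = t * t := by
      rintro t hp2 hpd ⟨c', hc'⟩ ht
      obtain ⟨v, w, hne, hall⟩ := split_two hq hd.1 hd1 ⟨p, hpp⟩ hp2 hpd c' hc'
      have e : hfin.toFinset.filter (fun v => (below v : ℕ) = p) = {v, w} := by
        ext u
        rw [hmem, hall, Finset.mem_insert, Finset.mem_singleton]
      rw [e, Finset.prod_pair hne, ht v (congrArg Subtype.val ((hall v).2 (Or.inl rfl))),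
        ht w (congrArg Subtype.val ((hall w).2 (Or.inr rfl)))]
    unfold F
    by_cases h3 : p = 3
    · subst h3
      rw [if_pos (Or.inl rfl), two 2 (by norm_num) (by have := hd.2.1; omega)
        ⟨1, by have := hd.2.1; push_cast; omega⟩ (fun v hv => c_three hy hq v hv)]
    by_cases h5 : p = 5
    · subst h5
      rw [if_pos (Or.inr rfl), two 2 (by norm_num) (by have := hd.2.2; omega) (by
        rcases hd.2.2 with h | h
        · exact ⟨1, by push_cast; omega⟩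
        · exact ⟨2, by push_cast; omega⟩) (fun v hv => c_five hy hq v hv)]
    have hpn' : p ∣ n := by
      rcases (Nat.Prime.dvd_mul hpp).1 hpn with h | h
      · exfalso
        have e : (15 : ℕ) = 3 * 5 := by norm_num
        rw [e, hpp.dvd_mul] at h
        rcases h with h | h
        · exact h3 ((Nat.prime_dvd_prime_iff_eq hpp (by norm_num)).1 h)
        · exact h5 ((Nat.prime_dvd_prime_iff_eq hpp (by norm_num)).1 h)
      · exact h
    obtain ⟨hp2, -, -, hpd⟩ := prime_dvd_n hy hpp hpn'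
    rw [if_neg (by rintro (h | h); exacts [h3 h, h5 h])]
    by_cases hj : jacobiSym d p = 1
    · rw [if_pos hj, two 4 hp2 hpd (exists_sqrt hpp hpd hj) (fun v hv => c_ram hy hq v (by
        rw [hv]; exact hpn'))]
    · rw [if_neg hj]
      have hj' := (jac_cases hpp hpd).resolve_left hj
      obtain ⟨v, hall⟩ := inert_one hq hd.1 hd1 ⟨p, hpp⟩ (no_sqrt hpp hj')
      have e : hfin.toFinset.filter (fun v => (below v : ℕ) = p) = {v} := by
        ext u
        rw [hmem, hall, Finset.mem_singleton]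
      rw [e, Finset.prod_singleton]
      apply c_ram hy hq v
      have := congrArg Subtype.val ((hall v).2 rfl)
      change (below v : ℕ) = p at this
      rw [this]
      exact hpn'
  rw [Finset.prod_congr rfl hinner]
  have h15 : (15 * n).primeFactors = {3, 5} ∪ n.primeFactors := by
    rw [Nat.primeFactors_mul (by norm_num) hn0]
    congr 1
    have e : (15 : ℕ) = 3 * 5 := by norm_num
    rw [e, Nat.primeFactors_mul (by norm_num) (by norm_num), Nat.Prime.primeFactors (by norm_num),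
      Nat.Prime.primeFactors (by norm_num)]
    rfl
  have hdis : Disjoint ({3, 5} : Finset ℕ) n.primeFactors := by
    rw [Finset.disjoint_left]
    intro p hp hpn
    rw [Nat.mem_primeFactors] at hpn
    obtain ⟨-, h3, h5, -⟩ := prime_dvd_n hy hpn.1 hpn.2.1
    rw [Finset.mem_insert, Finset.mem_singleton] at hp
    rcases hp with h | h
    · exact h3 h
    · exact h5 h
  rw [h15, Finset.prod_union hdis, Finset.prod_pair (by norm_num)]
  have hF3 : F d 3 = 4 := by unfold F; rw [if_pos (Or.inl rfl)]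
  have hF5 : F d 5 = 4 := by unfold F; rw [if_pos (Or.inr rfl)]
  have hFn : ∏ p ∈ n.primeFactors, F d p = 16 ^ spl n d * 4 ^ inr n d := by
    have h1 : ∀ p ∈ n.primeFactors, F d p = if jacobiSym d p = 1 then 16 else 4 := by
      intro p hp
      rw [Nat.mem_primeFactors] at hp
      obtain ⟨-, h3, h5, -⟩ := prime_dvd_n hy hp.1 hp.2.1
      unfold F
      rw [if_neg (by rintro (h | h); exacts [h3 h, h5 h])]
    rw [Finset.prod_congr rfl h1, Finset.prod_ite, Finset.prod_const, Finset.prod_const]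
    unfold spl inr
    congr 3
    apply Finset.filter_congr
    intro p hp
    rw [Nat.mem_primeFactors] at hp
    obtain ⟨-, -, -, hpd⟩ := prime_dvd_n hy hp.1 hp.2.1
    constructor
    · intro h
      exact (jac_cases hp.1 hpd).resolve_left h
    · intro h h'
      rw [h] at h'
      norm_num at h'
  rw [hF3, hF5, hFn]
  have e16 : (16 : ℕ) = 4 ^ 2 := by norm_num
  rw [e16, ← pow_mul, pow_add, pow_add]
  norm_num
  ring

end tam

end Pool.Agent.N106.QB
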